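import Mathlib

/-!
# Transfer of local factors at places with monodromy: linear algebra
-/

set_option autoImplicit false

namespace Pool.Agent.NH57.WM

open Polynomial Module

section exact

variable {k : Type} [Field k] [Infinite k] {V : Type} [AddCommGroup V] [Module k V]
  [FiniteDimensional k V]

theorem charpoly_mul (f : V →ₗ[k] V) (S : Submodule k V) (h : S ≤ S.comap f) :
    f.charpoly = (f.restrict h).charpoly * (S.mapQ S f h).charpoly := by
  apply Polynomial.funext
  intro t
  rw [eval_mul, LinearMap.eval_charpoly, LinearMap.eval_charpoly, LinearMap.eval_charpoly]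
  have h1 : S ≤ S.comap (algebraMap k (Module.End k V) t - f) := by
    intro x hx
    rw [Submodule.mem_comap, LinearMap.sub_apply, Module.algebraMap_end_apply]
    exact S.sub_mem (S.smul_mem t hx) (h hx)
  rw [LinearMap.det_eq_det_mul_det S _ h1]
  congr 2
  ext x
  simp

theorem charpoly_exact (G N : V →ₗ[k] V) {Q : k} (h : N ∘ₗ G = Q • (G ∘ₗ N))
    (hS : LinearMap.ker N ≤ (LinearMap.ker N).comap G)
    (hR : LinearMap.range N ≤ (LinearMap.range N).comap (Q • G)) :
    G.charpoly = (G.restrict hS).charpoly * ((Q • G).restrict hR).charpoly := by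
  rw [charpoly_mul G _ hS]
  congr 1
  have h1 : ((Q • G).restrict hR) = (N.quotKerEquivRange).conj ((LinearMap.ker N).mapQ _ G hS) := by
    ext x
    obtain ⟨x, y, rfl⟩ := x
    rw [LinearEquiv.conj_apply_apply]
    have h2 : N.quotKerEquivRange.symm ⟨N y, y, rfl⟩ = Submodule.Quotient.mk y := by
      rw [LinearEquiv.symm_apply_eq]
      rfl
    rw [h2]
    change Q • G (N y) = N (G y)
    exact (LinearMap.congr_fun h y).symm
  rw [h1, LinearEquiv.charpoly_conj]

end exact

theorem aeval_map_matrix {k : Type} [Field k] (e : k →+* ℂ) {m : ℕ}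
    (B : Matrix (Fin m) (Fin m) k) (p : k[X]) : aeval (B.map e) (p.map e) = (aeval B p).map e := by
  have h1 : (aeval B p).map e = RingHom.mapMatrix e (aeval B p) := rfl
  have h2 : B.map e = RingHom.mapMatrix e B := rfl
  rw [h1, h2, aeval_def, eval₂_map, aeval_def, hom_eval₂]
  congr 1
  ext a i j
  simp [Matrix.algebraMap_eq_diagonal, Matrix.diagonal_apply, apply_ite e]

section roots

variable {k : Type} [Field k] (e : k →+* ℂ) {V : Type} [AddCommGroup V] [Module k V]
  [FiniteDimensional k V]

/-- the trace is the sum of the roots -/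
theorem trace_roots (T : V →ₗ[k] V) :
    e (LinearMap.trace k V T) = (T.charpoly.map e).roots.sum := by
  let b := finBasis k V
  rw [← LinearMap.charpoly_toMatrix T b, ← Matrix.charpoly_map, ← Matrix.trace_eq_sum_roots_charpoly,
    LinearMap.trace_eq_matrix_trace k b, Matrix.trace, Matrix.trace, map_sum]
  rfl

theorem roots_ne (T : V →ₗ[k] V) : T.charpoly.map e ≠ 0 :=
  (T.charpoly_monic.map e).ne_zero

open Classical in
/-- the trace on the kernel -/
theorem trace_ker [Infinite k] (G N : V →ₗ[k] V) {Q : k}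
    (h : N ∘ₗ G = Q • (G ∘ₗ N)) (hS : LinearMap.ker N ≤ (LinearMap.ker N).comap G)
    (hR : LinearMap.range N ≤ (LinearMap.range N).comap (Q • G)) (P : ℂ → Prop)
    (h1 : ∀ z ∈ ((G.restrict hS).charpoly.map e).roots, P z)
    (h2 : ∀ z ∈ (((LinearMap.range N).mapQ _ (Q • G) hR).charpoly.map e).roots, ¬ P z) :
    e (LinearMap.trace k _ (G.restrict hS)) = ((G.charpoly.map e).roots.filter P).sum -
      (((Q • G).charpoly.map e).roots.filter P).sum := by
  have e1 := charpoly_exact G N h hS hR
  have e2 := charpoly_mul (Q • G) _ hR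
  have e3 : (G.charpoly.map e).roots = ((G.restrict hS).charpoly.map e).roots +
      (((Q • G).restrict hR).charpoly.map e).roots := by
    rw [e1, Polynomial.map_mul, roots_mul (mul_ne_zero (roots_ne e _) (roots_ne e _))]
  have e4 : ((Q • G).charpoly.map e).roots = (((Q • G).restrict hR).charpoly.map e).roots +
      (((LinearMap.range N).mapQ _ (Q • G) hR).charpoly.map e).roots := by
    rw [e2, Polynomial.map_mul, roots_mul (mul_ne_zero (roots_ne e _) (roots_ne e _))]
  rw [e3, e4, Multiset.filter_add, Multiset.filter_add, Multiset.filter_eq_self.2 h1,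
    Multiset.filter_eq_nil.2 h2, trace_roots e]
  simp

/-- a factor of the minimal polynomial -/
theorem exists_factor (T : V →ₗ[k] V) {z : ℂ} (hz : z ∈ (T.charpoly.map e).roots) (M : ℕ) :
    ∃ p : k[X], Irreducible p ∧ (p.map e).IsRoot (z ^ M) ∧
      ¬ Function.Injective (aeval (T ^ M) p : V →ₗ[k] V) := by
  classical
  let b := finBasis k V
  set A := LinearMap.toMatrix b b T with hA
  set q := minpoly k (T ^ M) with hq
  have hq0 : q ≠ 0 := minpoly.ne_zero (Algebra.IsIntegral.isIntegral _)
  -- the minimal polynomial has the root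
  have h1 : (q.map e).IsRoot (z ^ M) := by
    have h2 : z ∈ spectrum ℂ (A.map e) := by
      rw [Matrix.mem_spectrum_iff_isRoot_charpoly, Matrix.charpoly_map, hA,
        LinearMap.charpoly_toMatrix]
      exact (mem_roots (roots_ne e T)).1 hz
    have h3 : z ^ M ∈ spectrum ℂ ((A.map e) ^ M) := spectrum.pow_mem_pow _ M h2
    have h4 : (A.map e) ^ M = (LinearMap.toMatrix b b (T ^ M)).map e := by
      rw [← RingHom.mapMatrix_apply, ← map_pow, ← RingHom.mapMatrix_apply, LinearMap.toMatrix_pow]
    have h5 : aeval ((A.map e) ^ M) (q.map e) = 0 := by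
      have h6 : aeval (LinearMap.toMatrix b b (T ^ M)) q = 0 := by
        have h7 : LinearMap.toMatrix b b (aeval (T ^ M) q) = aeval (LinearMap.toMatrix b b (T ^ M)) q :=
          (Polynomial.aeval_algHom_apply (LinearMap.toMatrixAlgEquiv b).toAlgHom (T ^ M) q).symm
        rw [← h7, hq, minpoly.aeval, map_zero]
      rw [h4, aeval_map_matrix, h6]
      ext i j
      simp
    have h6 := spectrum.subset_polynomial_aeval ((A.map e) ^ M) (q.map e) ⟨_, h3, rfl⟩
    rw [h5] at h6
    by_contra h7
    have h8 : (q.map e).eval (z ^ M) ∈ spectrum ℂ (0 : Matrix (Fin _) (Fin _) ℂ) := h6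
    rw [spectrum.mem_iff, sub_zero] at h8
    exact h8 ((Units.mk0 _ h7).isUnit.map (algebraMap ℂ _))
  -- the prime ideal
  set I : Ideal k[X] := RingHom.ker (eval₂RingHom e (z ^ M)) with hI
  have hIp : I.IsPrime := RingHom.ker_isPrime _
  have hqI : q ∈ I := by
    rw [hI, RingHom.mem_ker, coe_eval₂RingHom, ← eval_map]
    exact h1
  have hI0 : I ≠ ⊥ := fun h0 => hq0 (by rw [h0] at hqI; exact hqI)
  set p := Submodule.IsPrincipal.generator I with hp
  have hpp : Prime p := Submodule.IsPrincipal.prime_generator_of_isPrime I hI0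
  refine ⟨p, hpp.irreducible, ?_, ?_⟩
  · have h2 : p ∈ I := Submodule.IsPrincipal.generator_mem I
    rw [hI, RingHom.mem_ker, coe_eval₂RingHom, ← eval_map] at h2
    exact h2
  · intro hinj
    obtain ⟨r, hr⟩ := (Submodule.IsPrincipal.mem_iff_generator_dvd I).1 hqI
    have h2 : aeval (T ^ M) r = 0 := by
      have h3 : aeval (T ^ M) p * aeval (T ^ M) r = 0 := by
        rw [← map_mul, ← hr, hq, minpoly.aeval]
      ext x
      apply hinj
      have := LinearMap.congr_fun h3 x
      rw [LinearMap.zero_apply, map_zero]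
      exact this
    have h3 : q ∣ r := minpoly.dvd k _ h2
    obtain ⟨s, hs⟩ := h3
    have h4 : q * (p * s) = q * 1 := by
      calc q * (p * s) = p * (q * s) := by ring
        _ = p * r := by rw [← hs]
        _ = q := hr.symm
        _ = q * 1 := (mul_one q).symm
    have h5 := mul_left_cancel₀ hq0 h4
    exact hpp.not_isUnit (IsUnit.of_mul_eq_one _ h5)

end roots

section eig

variable {k : Type} [Field k] (e : k →+* ℂ) {m : ℕ}

theorem exists_eigenvector (B : Matrix (Fin m) (Fin m) k) {y : Fin m → k} (hy : y ≠ 0) {p : k[X]}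
    (hp : Irreducible p) (hpy : (aeval B p).mulVec y = 0) {z : ℂ} (hz : (p.map e).IsRoot z) :
    ∃ x : Fin m → ℂ, x ≠ 0 ∧ (B.map e).mulVec x = z • x ∧
      ∀ D : Matrix (Fin m) (Fin m) k, (∀ i : ℕ, D.mulVec ((B ^ i).mulVec y) = (B ^ i).mulVec y) →
        (D.map e).mulVec x = x := by
  classical
  obtain ⟨r, hr⟩ := dvd_iff_isRoot.2 hz
  set x : Fin m → ℂ := (aeval (B.map e) r).mulVec (fun i => e (y i)) with hx
  have hmv : ∀ (D : Matrix (Fin m) (Fin m) k) (v : Fin m → k),
      (D.map e).mulVec (fun i => e (v i)) = fun i => e (D.mulVec v i) := by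
    intro D v
    funext i
    simp [Matrix.mulVec, dotProduct]
  have hxs : x = ∑ i ∈ Finset.range (r.natDegree + 1),
      r.coeff i • (fun j => e ((B ^ i).mulVec y j)) := by
    rw [hx, aeval_eq_sum_range, Matrix.sum_mulVec]
    refine Finset.sum_congr rfl fun i _ => ?_
    rw [Matrix.smul_mulVec]
    congr 1
    rw [← hmv, ← RingHom.mapMatrix_apply, ← RingHom.mapMatrix_apply, map_pow]
  refine ⟨x, ?_, ?_, ?_⟩
  · intro hx0
    have hr0 : r ≠ 0 := by
      rintro rfl
      rw [mul_zero] at hr
      exact hp.ne_zero ((Polynomial.map_eq_zero e).1 hr)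
    let _ : Module k ℂ := e.toModule
    have hsm : ∀ (a : k) (c : ℂ), a • c = e a * c := fun _ _ => rfl
    obtain ⟨f, hf⟩ : ∃ f : Module.Dual k ℂ, f r.leadingCoeff ≠ 0 := by
      by_contra hcon
      push Not at hcon
      exact leadingCoeff_ne_zero.2 hr0 ((Module.forall_dual_apply_eq_zero_iff k _).1 hcon)
    set s : k[X] := ∑ i ∈ Finset.range (r.natDegree + 1), C (f (r.coeff i)) * X ^ i with hs
    have hsc : s.coeff r.natDegree ≠ 0 := by
      rw [hs, finsetSum_coeff]
      simp only [coeff_C_mul, coeff_X_pow, mul_ite, mul_one, mul_zero]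
      rw [Finset.sum_ite_eq, if_pos (Finset.mem_range.2 (Nat.lt_succ_self _))]
      exact hf
    have hs0 : s ≠ 0 := by
      intro h
      rw [h, coeff_zero] at hsc
      exact hsc rfl
    have hdeg : s.natDegree < p.natDegree := by
      have h1 : s.natDegree ≤ r.natDegree := by
        rw [hs]
        refine natDegree_sum_le_of_forall_le _ _ fun i hi => ?_
        refine (natDegree_C_mul_X_pow_le _ _).trans ?_
        exact Nat.lt_succ_iff.1 (Finset.mem_range.1 hi)
      have h2 : p.natDegree = r.natDegree + 1 := by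
        have h3 := congrArg natDegree hr
        rw [natDegree_map, natDegree_mul (X_sub_C_ne_zero z) hr0, natDegree_X_sub_C] at h3
        omega
      omega
    have hsy : (aeval B s).mulVec y = 0 := by
      have h1 : (aeval B s).mulVec y = ∑ i ∈ Finset.range (r.natDegree + 1),
          f (r.coeff i) • (B ^ i).mulVec y := by
        rw [hs, map_sum, Matrix.sum_mulVec]
        refine Finset.sum_congr rfl fun i _ => ?_
        rw [map_mul, aeval_C, map_pow, aeval_X, Algebra.algebraMap_eq_smul_one, smul_mul_assoc,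
          one_mul, Matrix.smul_mulVec]
      rw [h1]
      funext j
      have h2 := congrFun hxs j
      rw [hx0, Pi.zero_apply, Finset.sum_apply] at h2
      have h3 := congrArg f h2
      rw [map_zero, map_sum] at h3
      rw [Finset.sum_apply, Pi.zero_apply, h3]
      refine Finset.sum_congr rfl fun i _ => ?_
      rw [Pi.smul_apply, Pi.smul_apply, smul_eq_mul, smul_eq_mul, mul_comm (r.coeff i), ← hsm,
        map_smul, smul_eq_mul, mul_comm]
    have hcop : IsCoprime p s := by
      rw [hp.coprime_iff_not_dvd]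
      intro hd
      have := natDegree_le_of_dvd hd hs0
      omega
    obtain ⟨a, b, hab⟩ := hcop
    apply hy
    have h1 : (aeval B (a * p + b * s)).mulVec y = 0 := by
      rw [map_add, map_mul, map_mul, Matrix.add_mulVec, ← Matrix.mulVec_mulVec,
        ← Matrix.mulVec_mulVec, hpy, hsy, Matrix.mulVec_zero, Matrix.mulVec_zero, add_zero]
    rw [hab, map_one, Matrix.one_mulVec] at h1
    exact h1
  · have h1 : (aeval (B.map e) (p.map e)).mulVec (fun i => e (y i)) = 0 := by
      rw [aeval_map_matrix, hmv, hpy]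
      funext i
      simp
    rw [hr, map_mul, ← Matrix.mulVec_mulVec, ← hx, map_sub, aeval_X, aeval_C, Matrix.sub_mulVec,
      Algebra.algebraMap_eq_smul_one, Matrix.smul_mulVec, Matrix.one_mulVec] at h1
    exact sub_eq_zero.1 h1
  · intro D hD
    rw [hxs, Matrix.mulVec_sum]
    refine Finset.sum_congr rfl fun i _ => ?_
    rw [Matrix.mulVec_smul, hmv, hD]

end eig

end Pool.Agent.NH57.WM
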