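import Pool.Agent.NH57.WM.Loc

/-!
# Transfer of local factors at places with monodromy: reduction to Frobenius elements
-/

set_option autoImplicit false

namespace Pool.Agent.NH57.WM

open NumberField Filter Topology IsDedekindDomain Pool.Agent.W401.Cheb Pool.Agent.R401.Sup
open Pool.Agent.W569.FM Pool.Agent.R401.Img Pool.Agent.R401.Sup3 Pool.Agent.R401.Sup4
open Pool.Agent.R401.Tr3 Pool.Agent.R401.Tr4 Pool.Agent.R401.Tr5 Module Polynomial Matrix
open Pool.Agent.R401.Tr8 Pool.Agent.R401.Tr9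

variable {K : Type} [Field K] [NumberField K]

omit [NumberField K] in
theorem frob_diff {P : Ideal (OO K)} {Q : ℕ} {s g : GK K} (hs : FrobAt Q P s)
    (hg : FrobAt Q P g⁻¹) : InInertia P (s * g) := by
  intro y
  have h1 := hs (g • y)
  have h2 := hg (g • y)
  rw [inv_smul_smul] at h2
  have h3 : (s * g) • y - y = (s • (g • y) - (g • y) ^ Q) - (y - (g • y) ^ Q) := by
    rw [mul_smul]
    abel
  rw [h3]
  exact P.sub_mem h1 h2

theorem eig_red {E : Type} [AddCommGroup E] [Module ℂ E] [FiniteDimensional ℂ E]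
    (R : GK K →* Module.End ℂ E) {P : Ideal (OO K)} {q : ℕ} (hq : 1 ≤ q) {σ : GK K}
    (hσ : FrobAt q P σ) (U : Subgroup (GK K)) (hUn : U.Normal) (k : ℕ) {g : GK K}
    (hg : FrobAt (q ^ k) P g⁻¹) {x : E} (hx0 : x ≠ 0)
    (hx : ∀ τ ∈ U, InInertia P τ → R τ x = x) {z : ℂ} (hz : R g x = z • x) :
    ∃ (z' : ℂ) (x' : E), x' ≠ 0 ∧ (∀ τ ∈ U, InInertia P τ → R τ x' = x') ∧ R σ⁻¹ x' = z' • x' ∧
      z' ^ (k * U.index) = z ^ U.index := by
  let E' : Submodule ℂ E :=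
    { carrier := {y | (∀ τ ∈ U, InInertia P τ → R τ y = y) ∧
        R (σ⁻¹ ^ (k * U.index)) y = z ^ U.index • y}
      zero_mem' := ⟨fun τ _ _ => map_zero _, by rw [map_zero, smul_zero]⟩
      add_mem' := by
        rintro a b ⟨ha, ha'⟩ ⟨hb, hb'⟩
        refine ⟨fun τ h1 h2 => ?_, ?_⟩
        · rw [map_add, ha τ h1 h2, hb τ h1 h2]
        · rw [map_add, ha', hb', smul_add]
      smul_mem' := by
        rintro c a ⟨ha, ha'⟩
        refine ⟨fun τ h1 h2 => ?_, ?_⟩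
        · rw [map_smul, ha τ h1 h2]
        · rw [map_smul, ha', smul_comm] }
  have hxE : x ∈ E' := by
    refine ⟨hx, ?_⟩
    have h1 : FrobAt (q ^ (k * U.index)) P (σ ^ (k * U.index)) := frob_pow hσ _
    have h2 : FrobAt (q ^ (k * U.index)) P (g ^ U.index)⁻¹ := by
      rw [pow_mul, ← inv_pow]
      exact frob_pow hg _
    have h3 := frob_diff h1 h2
    have h4 : σ ^ (k * U.index) * g ^ U.index ∈ U := by
      refine U.mul_mem ?_ (Subgroup.pow_index_mem U g)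
      rw [mul_comm k, pow_mul]
      exact U.pow_mem (Subgroup.pow_index_mem U σ) k
    have h5 := hx _ h4 h3
    have h6 : R (g ^ U.index) x = z ^ U.index • x := by
      generalize U.index = M
      induction M with
      | zero => rw [pow_zero, pow_zero, map_one, one_smul, Module.End.one_apply]
      | succ M ih =>
        rw [pow_succ, map_mul, Module.End.mul_apply, hz, map_smul, ih, smul_smul, pow_succ,
          mul_comm]
    have h7 : g ^ U.index = σ⁻¹ ^ (k * U.index) * (σ ^ (k * U.index) * g ^ U.index) := by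
      rw [inv_pow, inv_mul_cancel_left]
    rw [h7, map_mul, Module.End.mul_apply, h5] at h6
    exact h6
  have hstab : ∀ y ∈ E', R σ⁻¹ y ∈ E' := by
    rintro y ⟨hy, hy'⟩
    refine ⟨fun τ h1 h2 => ?_, ?_⟩
    · have h3 := hy _ (hUn.conj_mem τ h1 σ) (inertia_conj hq hσ h2)
      have h4 : τ * σ⁻¹ = σ⁻¹ * (σ * τ * σ⁻¹) := by group
      rw [← Module.End.mul_apply, ← map_mul, h4, map_mul, Module.End.mul_apply, h3]
    · rw [← Module.End.mul_apply, ← map_mul, ← pow_succ, pow_succ', map_mul,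
        Module.End.mul_apply, hy', map_smul]
  have hnt : Nontrivial E' := ⟨⟨⟨x, hxE⟩, 0, fun h => hx0 (congrArg Subtype.val h)⟩⟩
  obtain ⟨z', hz'⟩ := Module.End.exists_eigenvalue ((R σ⁻¹).restrict hstab)
  obtain ⟨y, hy⟩ := hz'.exists_hasEigenvector
  have hy1 : R σ⁻¹ (y : E) = z' • (y : E) := by
    have h1 := hy.apply_eq_smul
    exact congrArg Subtype.val h1
  have hy0 : (y : E) ≠ 0 := fun h => hy.2 (Subtype.ext h)
  refine ⟨z', y, hy0, y.2.1, hy1, ?_⟩
  have h6 : ∀ M : ℕ, R (σ⁻¹ ^ M) (y : E) = z' ^ M • (y : E) := by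
    intro M
    induction M with
    | zero => rw [pow_zero, pow_zero, map_one, one_smul, Module.End.one_apply]
    | succ M ih =>
      rw [pow_succ, map_mul, Module.End.mul_apply, hy1, map_smul, ih, smul_smul, pow_succ,
        mul_comm]
  have h7 := y.2.2
  rw [h6] at h7
  exact smul_left_injective ℂ hy0 h7

variable {ℓ : ℕ} [Fact ℓ.Prime]

/-- upper bound for the weights of Frobenius on the vectors fixed by inertia -/
def WLE0 {m : ℕ} (W : GK K →* GL (Fin m) ℚ_[ℓ]) (P : Ideal (OO K)) (σ : GK K) (r : ℝ)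
    (U : Subgroup (GK K)) (e : ℚ_[ℓ] →+* ℂ) : Prop :=
  ∀ (z : ℂ) (x : Fin m → ℂ), x ≠ 0 → (∀ τ ∈ U, InInertia P τ → ((mt W τ).map e) *ᵥ x = x) →
    ((mt W σ⁻¹).map e) *ᵥ x = z • x → ‖z‖ ^ 2 ≤ r

/-- lower bound for the weights on the rows fixed by inertia -/
def WGE0 {m : ℕ} (W : GK K →* GL (Fin m) ℚ_[ℓ]) (P : Ideal (OO K)) (σ : GK K) (r : ℝ)
    (U : Subgroup (GK K)) (e : ℚ_[ℓ] →+* ℂ) : Prop :=
  ∀ (z : ℂ) (x : Fin m → ℂ), x ≠ 0 → (∀ τ ∈ U, InInertia P τ → x ᵥ* ((mt W τ).map e) = x) →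
    x ᵥ* ((mt W σ⁻¹).map e) = z • x → r ≤ ‖z‖ ^ 2

section

variable {m : ℕ} (W : GK K →* GL (Fin m) ℚ_[ℓ]) {P : Ideal (OO K)} {q : ℕ} (hq : 1 ≤ q) {σ : GK K}
    (hσ : FrobAt q P σ) {r : ℝ} (hr : 0 < r) (U₀ : Subgroup (GK K)) (hU₀n : U₀.Normal)
    (hU₀o : IsOpen (U₀ : Set (GK K)))
    (hu : ∀ τ ∈ U₀, InInertia P τ → IsNilpotent (mt W τ - 1)) (e : ℚ_[ℓ] →+* ℂ)

theorem map_unip {A : Matrix (Fin m) (Fin m) ℚ_[ℓ]} (hA : IsNilpotent (A - 1)) :
    IsNilpotent (A.map e - 1) := by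
  have h1 := hA.map (RingHom.mapMatrix (m := Fin m) e)
  rwa [map_sub, map_one] at h1

theorem map_pow' (A : Matrix (Fin m) (Fin m) ℚ_[ℓ]) (j : ℕ) : (A ^ j).map e = (A.map e) ^ j := by
  rw [← RingHom.mapMatrix_apply, ← RingHom.mapMatrix_apply, map_pow]

include hq hσ hr hU₀n hU₀o hu in
theorem wle_of (h : WLE0 W P σ r U₀ e) : WLE W P q r e := by
  have hfin0 : Finite (GK K ⧸ U₀) := Subgroup.quotient_finite_of_isOpen _ hU₀o
  have hfi0 : U₀.FiniteIndex := Subgroup.finiteIndex_of_finite_quotient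
  have hm0 : 0 < U₀.index := Nat.pos_of_ne_zero hfi0.index_ne_zero
  intro k hk g hg U hUn hUo z x hx0 hx hz
  have hfin : Finite (GK K ⧸ U) := Subgroup.quotient_finite_of_isOpen _ hUo
  have hfi : U.FiniteIndex := Subgroup.finiteIndex_of_finite_quotient
  have hm : 0 < U.index := Nat.pos_of_ne_zero hfi.index_ne_zero
  have hx' : ∀ τ ∈ U₀, InInertia P τ → ((mt W τ).map e) *ᵥ x = x := by
    intro τ h1 h2
    refine unip_vec (map_unip e (hu τ h1 h2)) hm ?_
    rw [← map_pow', ← mt_pow]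
    exact hx _ (Subgroup.pow_index_mem U τ) ((IG P).pow_mem (show τ ∈ IG P from h2) _)
  let R : GK K →* Module.End ℂ (Fin m → ℂ) :=
    { toFun := fun g => Matrix.toLin' ((mt W g).map e)
      map_one' := by
        rw [Pool.Agent.R401.Tr9.mt_one, Matrix.map_one e (map_zero e) (map_one e), Matrix.toLin'_one]
        rfl
      map_mul' := fun a b => by
        rw [mt_mul, Matrix.map_mul, Matrix.toLin'_mul]
        rfl }
  have hR : ∀ g x, R g x = ((mt W g).map e) *ᵥ x := fun g x => Matrix.toLin'_apply _ _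
  obtain ⟨z', x', hx'0, hx'f, hx'e, hzz⟩ := eig_red R hq hσ U₀ hU₀n k hg hx0
    (fun τ h1 h2 => by rw [hR]; exact hx' τ h1 h2) (by rw [hR]; exact hz)
  have h1 := h z' x' hx'0 (fun τ h1 h2 => by rw [← hR]; exact hx'f τ h1 h2) (by rw [← hR]; exact hx'e)
  have h2 : (‖z‖ ^ 2) ^ U₀.index ≤ (r ^ k) ^ U₀.index := by
    rw [← pow_mul, mul_comm, pow_mul, ← norm_pow, ← hzz, norm_pow, ← pow_mul, mul_comm _ 2,
      pow_mul, ← pow_mul r]
    exact pow_le_pow_left₀ (by positivity) h1 _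
  exact (pow_le_pow_iff_left₀ (by positivity) (by positivity) hm0.ne').1 h2

include hq hσ hr hU₀n hU₀o hu in
theorem wge_of (h : WGE0 W P σ r U₀ e) : WGE W P q r e := by
  have hfin0 : Finite (GK K ⧸ U₀) := Subgroup.quotient_finite_of_isOpen _ hU₀o
  have hfi0 : U₀.FiniteIndex := Subgroup.finiteIndex_of_finite_quotient
  have hm0 : 0 < U₀.index := Nat.pos_of_ne_zero hfi0.index_ne_zero
  intro k hk g hg U hUn hUo z x hx0 hx hz
  have hfin : Finite (GK K ⧸ U) := Subgroup.quotient_finite_of_isOpen _ hUo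
  have hfi : U.FiniteIndex := Subgroup.finiteIndex_of_finite_quotient
  have hm : 0 < U.index := Nat.pos_of_ne_zero hfi.index_ne_zero
  have hx' : ∀ τ ∈ U₀, InInertia P τ → x ᵥ* ((mt W τ).map e) = x := by
    intro τ h1 h2
    refine unip_row (map_unip e (hu τ h1 h2)) hm ?_
    rw [← map_pow', ← mt_pow]
    exact hx _ (Subgroup.pow_index_mem U τ) ((IG P).pow_mem (show τ ∈ IG P from h2) _)
  let R : GK K →* Module.End ℂ (Fin m → ℂ) :=
    { toFun := fun g => Matrix.vecMulLinear ((mt W g⁻¹).map e)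
      map_one' := by
        refine LinearMap.ext fun x => ?_
        rw [Matrix.vecMulLinear_apply, inv_one, Pool.Agent.R401.Tr9.mt_one, Matrix.map_one e (map_zero e) (map_one e),
          Matrix.vecMul_one]
        rfl
      map_mul' := fun a b => by
        refine LinearMap.ext fun x => ?_
        rw [Module.End.mul_apply, Matrix.vecMulLinear_apply, Matrix.vecMulLinear_apply,
          Matrix.vecMulLinear_apply, _root_.mul_inv_rev, mt_mul, Matrix.map_mul,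
          Matrix.vecMul_vecMul] }
  have hR : ∀ g x, R g x = x ᵥ* ((mt W g⁻¹).map e) := fun g x => Matrix.vecMulLinear_apply _ _
  have hinv : ∀ (g : GK K) (x : Fin m → ℂ),
      (x ᵥ* ((mt W g).map e)) ᵥ* ((mt W g⁻¹).map e) = x := by
    intro g x
    rw [Matrix.vecMul_vecMul, ← Matrix.map_mul, ← mt_mul, mul_inv_cancel, Pool.Agent.R401.Tr9.mt_one,
      Matrix.map_one e (map_zero e) (map_one e), Matrix.vecMul_one]
  have hflip : ∀ (g : GK K) (x : Fin m → ℂ) (z : ℂ), x ≠ 0 → x ᵥ* ((mt W g).map e) = z • x →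
      z ≠ 0 ∧ x ᵥ* ((mt W g⁻¹).map e) = z⁻¹ • x := by
    intro g x z hx0 hz
    have h1 := hinv g x
    rw [hz, Matrix.smul_vecMul] at h1
    have hz0 : z ≠ 0 := by
      rintro rfl
      rw [zero_smul] at h1
      exact hx0 h1.symm
    refine ⟨hz0, ?_⟩
    rw [eq_inv_smul_iff₀ hz0]
    exact h1
  obtain ⟨hz0, hz1⟩ := hflip g x z hx0 hz
  obtain ⟨z', x', hx'0, hx'f, hx'e, hzz⟩ := eig_red R hq hσ U₀ hU₀n k hg hx0
    (fun τ h1 h2 => by
      rw [hR]
      exact hx' τ⁻¹ (U₀.inv_mem h1) ((IG P).inv_mem (show τ ∈ IG P from h2)))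
    (by rw [hR]; exact hz1)
  rw [hR, inv_inv] at hx'e
  obtain ⟨hz'0, hx'e'⟩ := hflip σ x' z' hx'0 hx'e
  have h1 := h z'⁻¹ x' hx'0 (fun τ h1 h2 => by
    have h3 := hx'f τ⁻¹ (U₀.inv_mem h1) ((IG P).inv_mem (show τ ∈ IG P from h2))
    rwa [hR, inv_inv] at h3) hx'e'
  have h2 : (r ^ k) ^ U₀.index ≤ (‖z‖ ^ 2) ^ U₀.index := by
    have h3 : ‖z‖ ^ U₀.index = ‖z'⁻¹‖ ^ (k * U₀.index) := by
      rw [norm_inv, inv_pow, ← norm_pow, ← norm_pow, hzz, inv_pow, norm_inv, inv_inv]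
    rw [← pow_mul ‖z‖, mul_comm 2, pow_mul ‖z‖, h3, ← pow_mul ‖z'⁻¹‖, mul_comm (k * U₀.index) 2,
      pow_mul ‖z'⁻¹‖, ← pow_mul r]
    exact pow_le_pow_left₀ hr.le h1 _
  exact (pow_le_pow_iff_left₀ (by positivity) (by positivity) hm0.ne').1 h2

end

end Pool.Agent.NH57.WM
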