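import Pool.Agent.R401.Iso

/-!
# Transfer of local factors at places with monodromy: embeddings in the complex numbers
-/

set_option autoImplicit false

namespace Pool.Agent.NH57.WM

open Cardinal Polynomial

theorem exists_equiv {E K L : Type} [Field E] [Field K] [Field L] [Algebra E K] [Algebra E L]
    [IsAlgClosed K] [IsAlgClosed L] (hE : #E ≤ ℵ₀) (hK : #K = 𝔠) (hL : #L = 𝔠) :
    ∃ f : K →+* L, ∀ r : E, f (algebraMap E K r) = algebraMap E L r := by
  obtain ⟨s, hs⟩ := exists_isTranscendenceBasis E K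
  obtain ⟨t, ht⟩ := exists_isTranscendenceBasis E L
  have h1 : #K = #s := IsAlgClosed.cardinal_eq_cardinal_transcendence_basis_of_aleph0_lt' _ hs hE
    (by rw [hK]; exact Cardinal.aleph0_lt_continuum)
  have h2 : #L = #t := IsAlgClosed.cardinal_eq_cardinal_transcendence_basis_of_aleph0_lt' _ ht hE
    (by rw [hL]; exact Cardinal.aleph0_lt_continuum)
  have h3 : #s = #t := by rw [← h1, ← h2, hK, hL]
  obtain ⟨e⟩ := Cardinal.eq.1 h3
  let v : s → K := Subtype.val
  let w : t → L := Subtype.val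
  have := IsAlgClosed.isAlgClosure_of_transcendence_basis v hs
  have := IsAlgClosed.isAlgClosure_of_transcendence_basis w ht
  let g : Algebra.adjoin E (Set.range v) ≃ₐ[E] Algebra.adjoin E (Set.range w) :=
    (hs.1.aevalEquiv.symm.trans (MvPolynomial.renameEquiv E e)).trans ht.1.aevalEquiv
  let f : K ≃+* L := IsAlgClosure.equivOfEquiv K L g.toRingEquiv
  refine ⟨f, fun r => ?_⟩
  have h4 := IsAlgClosure.equivOfEquiv_algebraMap K L g.toRingEquiv
    (algebraMap E (Algebra.adjoin E (Set.range v)) r)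
  have h5 : g.toRingEquiv (algebraMap E (Algebra.adjoin E (Set.range v)) r) =
      algebraMap E (Algebra.adjoin E (Set.range w)) r := g.commutes r
  rw [h5] at h4
  exact h4

theorem rat_of_const {ℓ : ℕ} [Fact ℓ.Prime] {c : ℚ_[ℓ]} (hc : IsIntegral ℤ c)
    (h : ∀ e e' : ℚ_[ℓ] →+* ℂ, e c = e' c) : ∃ z : ℤ, c = z := by
  have hcQ : IsIntegral ℚ c := hc.tower_top
  set f := minpoly ℚ c with hf
  have hirr : Irreducible f := minpoly.irreducible hcQ
  -- all the roots are equal
  have hroot : ∀ r : ℂ, aeval r f = 0 → ∃ e : ℚ_[ℓ] →+* ℂ, e c = r := by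
    intro r hr
    let E : IntermediateField ℚ ℚ_[ℓ] := IntermediateField.adjoin ℚ {c}
    have hfr : r ∈ (f.aroots ℂ) := by
      rw [mem_aroots]
      exact ⟨minpoly.ne_zero hcQ, hr⟩
    let i : E →ₐ[ℚ] ℂ := (IntermediateField.algHomAdjoinIntegralEquiv ℚ hcQ).symm ⟨r, hfr⟩
    have hi : i (IntermediateField.AdjoinSimple.gen ℚ c) = r :=
      IntermediateField.algHomAdjoinIntegralEquiv_symm_apply_gen ℚ hcQ ⟨r, hfr⟩
    let _ : Algebra E ℂ := i.toRingHom.toAlgebra
    let _ : Algebra E (PadicAlgCl ℓ) := ((algebraMap ℚ_[ℓ] (PadicAlgCl ℓ)).comp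
      (algebraMap E ℚ_[ℓ])).toAlgebra
    have hE : #E ≤ ℵ₀ := by
      have : FiniteDimensional ℚ E := IntermediateField.adjoin.finiteDimensional hcQ
      have h1 : #E ≤ max #ℚ ℵ₀ := Algebra.IsAlgebraic.cardinalMk_le_max ℚ E
      refine h1.trans ?_
      simp
    obtain ⟨g, hg⟩ := exists_equiv (E := E) (K := PadicAlgCl ℓ) (L := ℂ) hE
      (Pool.Agent.R401.Iso.mk_algCl ℓ) Cardinal.mk_complex
    refine ⟨g.comp (algebraMap ℚ_[ℓ] (PadicAlgCl ℓ)), ?_⟩
    have h2 := hg (IntermediateField.AdjoinSimple.gen ℚ c)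
    rw [← hi]
    exact h2
  have hsep : (f.map (algebraMap ℚ ℂ)).Separable := hirr.separable.map
  have hcard : Multiset.card (f.aroots ℂ) = f.natDegree := by
    have h1 : (f.map (algebraMap ℚ ℂ)).Splits := IsAlgClosed.splits _
    have h2 := h1.natDegree_eq_card_roots
    rw [natDegree_map] at h2
    exact h2.symm
  have hnd : (f.aroots ℂ).Nodup := nodup_roots hsep
  have hdeg : f.natDegree ≤ 1 := by
    by_contra hlt
    push Not at hlt
    obtain ⟨a, ha⟩ : ∃ a, a ∈ f.aroots ℂ := by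
      rw [← Multiset.card_pos_iff_exists_mem, hcard]
      omega
    obtain ⟨s, hs⟩ := Multiset.exists_cons_of_mem ha
    obtain ⟨b, hb⟩ : ∃ b, b ∈ s := by
      rw [← Multiset.card_pos_iff_exists_mem]
      have h1 := hcard
      rw [hs, Multiset.card_cons] at h1
      omega
    have hab : a ≠ b := by
      rw [hs] at hnd
      rintro rfl
      exact (Multiset.nodup_cons.1 hnd).1 hb
    have ha' : aeval a f = 0 := (mem_aroots.1 ha).2
    have hb' : aeval b f = 0 := (mem_aroots.1 (by rw [hs]; exact Multiset.mem_cons_of_mem hb)).2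
    obtain ⟨e, he⟩ := hroot a ha'
    obtain ⟨e', he'⟩ := hroot b hb'
    exact hab (by rw [← he, ← he', h e e'])
  have hdeg1 : f.natDegree = 1 := le_antisymm hdeg (minpoly.natDegree_pos hcQ)
  have h1 : c ∈ (algebraMap ℚ ℚ_[ℓ]).range := by
    rw [← minpoly.natDegree_eq_one_iff]
    exact hdeg1
  obtain ⟨a, rfl⟩ := h1
  have h2 : IsIntegral ℤ a := (isIntegral_algebraMap_iff (algebraMap ℚ ℚ_[ℓ]).injective).1 hc
  obtain ⟨z, hz⟩ := IsIntegrallyClosed.isIntegral_iff.1 h2
  refine ⟨z, ?_⟩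
  rw [← hz]
  simp

end Pool.Agent.NH57.WM
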