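import Pool.Agent.NH57.WM.Cmp

/-!
# Transfer of local factors at places with monodromy: averages
-/

set_option autoImplicit false

namespace Pool.Agent.NH57.WM

open NumberField Filter Topology IsDedekindDomain Pool.Agent.W401.Cheb Pool.Agent.R401.Sup
open Pool.Agent.W569.FM Pool.Agent.R401.Img Pool.Agent.R401.Sup3 Pool.Agent.R401.Sup4
open Pool.Agent.R401.Tr3 Pool.Agent.R401.Tr4 Pool.Agent.R401.Tr5 Module Polynomial Matrix
open Pool.Agent.R401.Tr8 Pool.Agent.R401.Tr9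

theorem rev_coeff_eq {k k' : Type} [Field k] [Field k'] (e : k →+* ℂ) (e' : k' →+* ℂ) {s s' : ℕ}
    (A : Matrix (Fin s) (Fin s) k) (A' : Matrix (Fin s') (Fin s') k')
    (h : ∀ j : ℕ, 1 ≤ j → e (A ^ j).trace = e' (A' ^ j).trace) (i : ℕ) :
    e (A.charpolyRev.coeff i) = e' (A'.charpolyRev.coeff i) := by
  induction i using Nat.strong_induction_on with
  | _ i ih =>
    rcases i with _ | i
    · rw [coeff_zero_eq_eval_zero, coeff_zero_eq_eval_zero, Matrix.eval_charpolyRev,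
        Matrix.eval_charpolyRev, map_one, map_one]
    · have hk : ((i : ℂ) + 1) ≠ 0 := by exact_mod_cast Nat.succ_ne_zero i
      refine mul_right_cancel₀ hk ?_
      have h1 := congrArg e (Pool.Agent.TH658.Eq.newton A i)
      have h2 := congrArg e' (Pool.Agent.TH658.Eq.newton A' i)
      rw [map_mul, map_add, map_natCast, map_one, map_neg, map_sum] at h1 h2
      rw [h1, h2]
      congr 1
      refine Finset.sum_congr rfl fun p hp => ?_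
      rw [map_mul, map_mul, h _ (Nat.succ_le_succ (Nat.zero_le _)), ih p.1]
      have h3 := Finset.HasAntidiagonal.mem_antidiagonal.1 hp
      omega

variable {K : Type} [Field K] [NumberField K] {ℓ : ℕ} [Fact ℓ.Prime]

section one

variable {n : ℕ} (V : GK K →* GL (Fin n) ℚ_[ℓ]) {P : Ideal (OO K)} (U₁ : Subgroup (GK K))
  (hU₁o : IsOpen (U₁ : Set (GK K))) {P0 : Matrix (Fin n) (Fin n) ℚ_[ℓ]}
  (h0 : ∀ x, P0 *ᵥ x ∈ SI V P U₁) (h1 : ∀ x ∈ SI V P U₁, P0 *ᵥ x = x)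
  {I : Submodule ℚ_[ℓ] (Fin n → ℚ_[ℓ])}
  (hI : ∀ x, x ∈ I ↔ ∀ τ, InInertia P τ → mt V τ *ᵥ x = x)

include h0 in
theorem mt_mul_P0 {τ : GK K} (hτU : τ ∈ U₁) (hτ : InInertia P τ) : mt V τ * P0 = P0 := by
  apply Matrix.ext_of_mulVec_single
  intro i
  rw [← Matrix.mulVec_mulVec]
  exact h0 _ τ hτU hτ

include h0 in
theorem out_P0 {a b : IG P} (h : (a : IG P ⧸ U₁.subgroupOf (IG P)) = b) :
    mt V (a : GK K) * P0 = mt V (b : GK K) * P0 := by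
  have h1 := QuotientGroup.eq.1 h
  rw [Subgroup.mem_subgroupOf] at h1
  have h2 := mt_mul_P0 V U₁ h0 h1 (a⁻¹ * b).2
  have h3 : (b : GK K) = (a : GK K) * ((a⁻¹ * b : IG P) : GK K) := by
    rw [Subgroup.coe_mul, Subgroup.coe_inv, mul_inv_cancel_left]
  rw [h3, mt_mul, mul_assoc, h2]

include hU₁o h0 in
theorem mul_avg {τ : GK K} (hτ : InInertia P τ) :
    mt V τ * (Pool.Agent.R401.Tr10.ee V U₁ (P := P) * P0) = Pool.Agent.R401.Tr10.ee V U₁ (P := P) * P0 := by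
  classical
  have := Pool.Agent.R401.Tr6.finQ U₁ hU₁o (P := P)
  have hft : Fintype (IG P ⧸ U₁.subgroupOf (IG P)) := Fintype.ofFinite _
  unfold Pool.Agent.R401.Tr10.ee
  rw [smul_mul_assoc, mul_smul_comm, finsum_eq_sum_of_fintype, Finset.sum_mul, Finset.mul_sum]
  congr 1
  let t : IG P := ⟨τ, hτ⟩
  conv_rhs => rw [← Equiv.sum_comp (MulAction.toPerm t : Equiv.Perm (IG P ⧸ U₁.subgroupOf (IG P)))]
  refine Finset.sum_congr rfl fun q _ => ?_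
  rw [← mul_assoc, ← mt_mul]
  have h1 : τ * ((q.out : IG P) : GK K) = ((t * q.out : IG P) : GK K) := rfl
  rw [h1]
  apply out_P0 V U₁ h0
  rw [MulAction.toPerm_apply]
  have h2 : (((t • q).out : IG P) : IG P ⧸ U₁.subgroupOf (IG P)) = t • q := Quotient.out_eq _
  rw [h2]
  conv_rhs => rw [← Quotient.out_eq q]
  rfl

include hU₁o h0 hI in
theorem avg_mem (x : Fin n → ℚ_[ℓ]) : (Pool.Agent.R401.Tr10.ee V U₁ (P := P) * P0) *ᵥ x ∈ I := by
  rw [hI]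
  intro τ hτ
  rw [Matrix.mulVec_mulVec, mul_avg V U₁ hU₁o h0 hτ]

include hU₁o h1 hI in
theorem avg_fix (x : Fin n → ℚ_[ℓ]) (hx : x ∈ I) : (Pool.Agent.R401.Tr10.ee V U₁ (P := P) * P0) *ᵥ x = x := by
  rw [← Matrix.mulVec_mulVec, h1 x (fun τ _ hτ => (hI x).1 hx τ hτ)]
  exact Pool.Agent.R401.Tr10.ee_fix V U₁ hU₁o hI x hx

include hU₁o in
theorem trace_avg (e : ℚ_[ℓ] →+* ℂ) (σ : GK K) (k : ℕ) :
    e (mt V σ⁻¹ ^ k * (Pool.Agent.R401.Tr10.ee V U₁ (P := P) * P0)).trace =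
      (Nat.card (IG P ⧸ U₁.subgroupOf (IG P)) : ℂ)⁻¹ *
      ∑ᶠ q : IG P ⧸ U₁.subgroupOf (IG P),
        e (mt V (σ⁻¹ ^ k * ((q.out : IG P) : GK K)) * P0).trace := by
  classical
  have := Pool.Agent.R401.Tr6.finQ U₁ hU₁o (P := P)
  have hft : Fintype (IG P ⧸ U₁.subgroupOf (IG P)) := Fintype.ofFinite _
  unfold Pool.Agent.R401.Tr10.ee
  rw [finsum_eq_sum_of_fintype, finsum_eq_sum_of_fintype, smul_mul_assoc, mul_smul_comm,
    Matrix.trace_smul, Finset.sum_mul, Finset.mul_sum, Matrix.trace_sum, smul_eq_mul, map_mul,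
    map_inv₀, map_natCast, map_sum]
  congr 1
  refine Finset.sum_congr rfl fun q _ => ?_
  rw [mt_mul, mt_pow, mul_assoc]

end one

section int

variable {n m : ℕ} (V : GK K →* GL (Fin n) ℚ_[ℓ])
  (W : GK K →* GL (Fin m) ℚ_[ℓ]) (u : ℤ)
  (φ : GK K → ℚ) (U : Subgroup (GK K)) (hUn : U.Normal) (hUo : IsOpen (U : Set (GK K)))
  (hU : ∀ x ∈ U, ∀ y, φ (x * y) = φ y)
  (hφ : ∀ y : GK K, cyc K ℓ ℚ_[ℓ] y ^ u * ((mt V y).trace - (mt W y).trace) = (φ y : ℚ_[ℓ]))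
  {P : Ideal (OO K)} (hP : P.IsMaximal) {q : ℕ} {σ : GK K} (hσ : FrobAt q P σ)
  (hℓP : (ℓ : OO K) ∉ P) (hu : φ 1 ≠ 0 → 0 ≤ u)

include hUn hUo hU hφ hP hσ hℓP hu in
theorem exists_monic (hW : ∃ f : ℤ[X], f.Monic ∧ aeval (mt W σ⁻¹) f = 0) :
    ∃ f : ℤ[X], f.Monic ∧ aeval (mt V σ⁻¹) f = 0 := by
  have hfin : Finite (GK K ⧸ U) := Subgroup.quotient_finite_of_isOpen _ hUo
  have hfi : U.FiniteIndex := Subgroup.finiteIndex_of_finite_quotient
  have hm : 0 < U.index := Nat.pos_of_ne_zero hfi.index_ne_zero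
  have hgU : σ⁻¹ ^ U.index ∈ U := Subgroup.pow_index_mem U σ⁻¹
  set g : U := ⟨σ⁻¹ ^ U.index, hgU⟩ with hg
  have hgF : FrobAt (q ^ U.index) P (σ⁻¹ ^ U.index)⁻¹ := by
    rw [← inv_pow, inv_inv]
    exact frob_pow hσ _
  have hWi : IsIntegral ℤ (mt W σ⁻¹) := by
    obtain ⟨f, hf, hf0⟩ := hW
    exact ⟨f, hf, hf0⟩
  obtain ⟨f2, hf2, hf20⟩ := hWi.pow U.index
  have hf20' : aeval (mt W (σ⁻¹ ^ U.index)) f2 = 0 := by
    rw [mt_pow]
    exact hf20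
  -- the polynomial
  have key : ∃ h : ℤ[X], h.Monic ∧ aeval (mt W (σ⁻¹ ^ U.index)) h = 0 ∧
      (((φ 1 : ℚ) : ℚ_[ℓ]) = 0 ∨ aeval (cyc K ℓ ℚ_[ℓ] (σ⁻¹ ^ U.index) ^ (-u)) h = 0) := by
    by_cases h1 : φ 1 = 0
    · exact ⟨f2, hf2, hf20', Or.inl (by rw [h1, Rat.cast_zero])⟩
    · obtain ⟨v, hv⟩ := Int.eq_ofNat_of_zero_le (hu h1)
      have h2 := cyc_sigma (ℓ := ℓ) hP hgF hℓP
      rw [c_inv] at h2
      refine ⟨f2 * (X - C (((q ^ U.index) ^ v : ℕ) : ℤ)), hf2.mul (monic_X_sub_C _), ?_, Or.inr ?_⟩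
      · rw [map_mul, hf20', zero_mul]
      · rw [map_mul, map_sub, aeval_X, aeval_C, _root_.zpow_neg, ← _root_.inv_zpow, h2, hv]
        simp
  obtain ⟨h, hh, hhW, hhl⟩ := key
  have hmapA : ∀ {A : Type} [Ring A] [Algebra ℚ_[ℓ] A] (x : A),
      aeval x (h.map (Int.castRingHom ℚ_[ℓ])) = aeval x h := by
    intro A _ _ x
    rw [aeval_def, eval₂_map, aeval_def]
    congr 1
    exact Subsingleton.elim _ _
  set a : MonoidAlgebra ℚ_[ℓ] U := aeval (MonoidAlgebra.of ℚ_[ℓ] U g)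
    (h.map (Int.castRingHom ℚ_[ℓ])) with ha
  have h1 : IsNilpotent (li (rs V U) a) := by
    refine nilp_rep (rs V U) (rs W U) (lU K ℓ u U) (φ 1 : ℚ_[ℓ]) (htrU V W u φ U hU hφ) a ?_ ?_
    · rw [ha, li_aeval, hmapA]
      exact hhW
    · rcases hhl with hc | hc
      · exact Or.inl hc
      · refine Or.inr ?_
        rw [ha, li_aeval, hmapA]
        exact hc
  rw [ha, li_aeval, hmapA] at h1
  obtain ⟨M, hM⟩ := h1
  refine ⟨expand ℤ U.index (h ^ M), (hh.pow M).expand hm, ?_⟩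
  rw [expand_aeval, map_pow, ← mt_pow]
  exact hM

end int

end Pool.Agent.NH57.WM
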