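import Pool.Agent.NH57.WM.Sem

/-!
# Transfer of local factors at places with monodromy: Clifford's theorem
-/

set_option autoImplicit false

namespace Pool.Agent.NH57.WM

open Polynomial Module

section clifford

variable {k : Type} [Field k] {G : Type} [Group G] {M : Type} [AddCommGroup M] [Module k M]
  [FiniteDimensional k M] (Φ : G →* Module.End k M)

omit [FiniteDimensional k M] in
theorem inv_mul' (g : G) : Φ g⁻¹ * Φ g = 1 := by rw [← map_mul, inv_mul_cancel, map_one]

/-- conjugation -/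
def cj (g : G) : Module.End k M →ₐ[k] Module.End k M where
  toFun b := Φ g * b * Φ g⁻¹
  map_one' := by rw [mul_one, ← map_mul, mul_inv_cancel, map_one]
  map_mul' a b := by
    calc Φ g * (a * b) * Φ g⁻¹ = Φ g * a * 1 * b * Φ g⁻¹ := by simp only [mul_one, mul_assoc]
      _ = Φ g * a * (Φ g⁻¹ * Φ g) * b * Φ g⁻¹ := by rw [inv_mul' Φ]
      _ = _ := by simp only [mul_assoc]
  map_zero' := by rw [mul_zero, zero_mul]
  map_add' a b := by rw [mul_add, add_mul]
  commutes' r := by
    rw [Algebra.algebraMap_eq_smul_one, mul_smul_comm, smul_mul_assoc, mul_one, ← map_mul,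
      mul_inv_cancel, map_one]

omit [FiniteDimensional k M] in
theorem cj_apply (g : G) (b : Module.End k M) : cj Φ g b = Φ g * b * Φ g⁻¹ := rfl

/-- the image of the group algebra of `U` -/
abbrev BU (U : Subgroup G) : Subalgebra k (Module.End k M) := Algebra.adjoin k (Φ '' U)

variable (U : Subgroup G) [hU : U.Normal]

omit [FiniteDimensional k M] in
theorem cj_mem (g : G) {b : Module.End k M} (hb : b ∈ BU Φ U) : cj Φ g b ∈ BU Φ U := by
  have h1 : cj Φ g b ∈ (BU Φ U).map (cj Φ g) := ⟨b, hb, rfl⟩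
  rw [AlgHom.map_adjoin] at h1
  refine Algebra.adjoin_mono ?_ h1
  rintro _ ⟨_, ⟨u, hu, rfl⟩, rfl⟩
  refine ⟨g * u * g⁻¹, hU.conj_mem u hu g, ?_⟩
  rw [cj_apply, ← map_mul, ← map_mul]

/-- conjugation as a homomorphism of rings -/
def cjB (g : G) : BU Φ U →+* BU Φ U :=
  (((cj Φ g).comp (BU Φ U).val).codRestrict (BU Φ U) fun b => cj_mem Φ U g b.2).toRingHom

omit [FiniteDimensional k M] in
theorem cjB_apply (g : G) (b : BU Φ U) : ((cjB Φ U g b : BU Φ U) : Module.End k M) =
    Φ g * b * Φ g⁻¹ := rfl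

omit [FiniteDimensional k M] in
theorem cjB_surj (g : G) : Function.Surjective (cjB Φ U g) := by
  intro b
  refine ⟨cjB Φ U g⁻¹ b, Subtype.ext ?_⟩
  rw [cjB_apply, cjB_apply, inv_inv]
  calc Φ g * (Φ g⁻¹ * (b : Module.End k M) * Φ g) * Φ g⁻¹
      = (Φ g * Φ g⁻¹) * b * (Φ g * Φ g⁻¹) := by simp only [mul_assoc]
    _ = b := by rw [← map_mul, mul_inv_cancel, map_one, one_mul, mul_one]

omit [FiniteDimensional k M] in
theorem cjB_jac (g : G) (r : ℕ) :
    (Ring.jacobson (BU Φ U)) ^ r ≤ Ideal.comap (cjB Φ U g) ((Ring.jacobson (BU Φ U)) ^ r) := by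
  have : RingHomSurjective (cjB Φ U g) := ⟨cjB_surj Φ U g⟩
  induction r with
  | zero =>
    intro b _
    rw [Ideal.mem_comap, Submodule.pow_zero, Ideal.one_eq_top]
    exact Submodule.mem_top
  | succ r ih =>
    rw [Submodule.pow_succ, Ideal.mul_le]
    intro a ha b hb
    rw [Ideal.mem_comap, map_mul]
    exact Ideal.mul_mem_mul (ih ha) (Ring.le_comap_jacobson (cjB Φ U g) hb)

theorem pow_zero_of_le {B : Type*} [Ring B] {J : Ideal B} {N : ℕ} (hN : J ^ N = ⊥) {r : ℕ}
    (hr : N ≤ r) : J ^ r = ⊥ := by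
  induction r, hr using Nat.le_induction with
  | base => exact hN
  | succ r _ ih => rw [Submodule.pow_succ, ih, Submodule.bot_mul]

/-- **Clifford's theorem.** -/
theorem clifford (h : SS (Set.range Φ)) : SS (Φ '' U) := by
  classical
  set B := BU Φ U with hB
  have hfin : Module.Finite k B := inferInstance
  have hart : IsArtinianRing B := IsArtinianRing.of_finite k B
  have hsp : IsSemiprimaryRing B := inferInstance
  suffices hss : IsSemisimpleRing B by
    intro S hS
    have hS' : ∀ b ∈ B, ∀ x ∈ S, b x ∈ S := by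
      intro b hb
      refine Algebra.adjoin_induction (p := fun b _ => ∀ x ∈ S, b x ∈ S) ?_ ?_ ?_ ?_ hb
      · exact fun b hb => hS b hb
      · intro r x hx
        rw [Module.algebraMap_end_apply]
        exact S.smul_mem r hx
      · intro a b _ _ ha hb x hx
        exact S.add_mem (ha x hx) (hb x hx)
      · intro a b _ _ ha hb x hx
        exact ha _ (hb x hx)
    obtain ⟨T, hT, hST⟩ := ss_of_ring B S hS'
    exact ⟨T, fun b hb => hT b (Algebra.subset_adjoin hb), hST⟩
  rw [IsArtinianRing.isSemisimpleRing_iff_jacobson]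
  set J := Ring.jacobson B with hJ
  by_contra hJ0
  have hnil : ∃ N : ℕ, J ^ N = ⊥ := hsp.isNilpotent
  have hN := Nat.find_spec hnil
  set N := Nat.find hnil with hNdef
  have hN2 : 2 ≤ N := by
    by_contra hlt
    have h1 : J ^ 1 = ⊥ := pow_zero_of_le hN (by omega)
    rw [Submodule.pow_one] at h1
    exact hJ0 h1
  set I := J ^ (N - 1) with hI
  have hI0 : I ≠ ⊥ := Nat.find_min hnil (by omega)
  have hII : ∀ a ∈ I, ∀ b ∈ I, a * b = 0 := by
    intro a ha b hb
    have h1 : a * b ∈ J ^ (N - 1) * J ^ (N - 1) := Ideal.mul_mem_mul ha hb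
    rw [← Submodule.pow_add J (by omega), pow_zero_of_le hN (show N ≤ N - 1 + (N - 1) by omega)] at h1
    exact h1
  -- the subspace
  let X : Submodule k M := Submodule.span k {y | ∃ b ∈ I, ∃ m : M, (b : Module.End k M) m = y}
  have hXG : ∀ g : G, ∀ x ∈ X, Φ g x ∈ X := by
    intro g x hx
    refine Submodule.span_induction (p := fun x _ => Φ g x ∈ X) ?_ ?_ ?_ ?_ hx
    · rintro _ ⟨b, hb, m, rfl⟩
      refine Submodule.subset_span ⟨cjB Φ U g b, cjB_jac Φ U g _ hb, Φ g m, ?_⟩
      rw [cjB_apply, Module.End.mul_apply, Module.End.mul_apply, ← Module.End.mul_apply (Φ g⁻¹),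
        inv_mul' Φ, Module.End.one_apply]
    · rw [map_zero]
      exact X.zero_mem
    · intro x y _ _ hx hy
      rw [map_add]
      exact X.add_mem hx hy
    · intro c x _ hx
      rw [map_smul]
      exact X.smul_mem c hx
  obtain ⟨T, hT, hXT⟩ := h X (by
    rintro _ ⟨g, rfl⟩ x hx
    exact hXG g x hx)
  have hTB : ∀ b ∈ B, ∀ x ∈ T, b x ∈ T := by
    intro b hb
    refine Algebra.adjoin_induction (p := fun b _ => ∀ x ∈ T, b x ∈ T) ?_ ?_ ?_ ?_ hb
    · rintro _ ⟨g, _, rfl⟩ x hx
      exact hT _ ⟨g, rfl⟩ x hx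
    · intro r x hx
      rw [Module.algebraMap_end_apply]
      exact T.smul_mem r hx
    · intro a b _ _ ha hb x hx
      exact T.add_mem (ha x hx) (hb x hx)
    · intro a b _ _ ha hb x hx
      exact ha _ (hb x hx)
  apply hI0
  rw [eq_bot_iff]
  intro b hb
  rw [Submodule.mem_bot]
  apply Subtype.ext
  refine LinearMap.ext fun m => ?_
  have hm : m ∈ X ⊔ T := by
    rw [hXT.sup_eq_top]
    exact Submodule.mem_top
  obtain ⟨x, hx, t, ht, rfl⟩ := Submodule.mem_sup.1 hm
  have h1 : (b : Module.End k M) x = 0 := by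
    refine Submodule.span_induction (p := fun x _ => (b : Module.End k M) x = 0) ?_ ?_ ?_ ?_ hx
    · rintro _ ⟨c, hc, m, rfl⟩
      have h2 := congrArg (fun b : B => (b : Module.End k M) m) (hII b hb c hc)
      exact h2
    · rw [map_zero]
    · intro x y _ _ hx hy
      rw [map_add, hx, hy, add_zero]
    · intro c x _ hx
      rw [map_smul, hx, smul_zero]
  have h2 : (b : Module.End k M) t = 0 :=
    Submodule.disjoint_def.1 hXT.disjoint _ (Submodule.subset_span ⟨b, hb, t, rfl⟩)
      (hTB b b.2 t ht)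
  rw [map_add, h1, h2, add_zero]
  rfl

end clifford

end Pool.Agent.NH57.WM
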