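import Pool.Agent.NH57.WM.Wt2
import Pool.Agent.R401.Tr10

/-!
# Transfer of local factors at places with monodromy: comparison of the traces
-/

set_option autoImplicit false

namespace Pool.Agent.NH57.WM

open NumberField Filter Topology IsDedekindDomain Pool.Agent.W401.Cheb Pool.Agent.R401.Sup
open Pool.Agent.W569.FM Pool.Agent.R401.Img Pool.Agent.R401.Sup3 Pool.Agent.R401.Sup4
open Pool.Agent.R401.Tr3 Pool.Agent.R401.Tr4 Pool.Agent.R401.Tr5 Module Polynomial Matrix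
open Pool.Agent.R401.Tr8 Pool.Agent.R401.Tr9

theorem trace_proj {k : Type} [Field k] {n : ℕ} {S : Submodule k (Fin n → k)}
    {A P0 : Matrix (Fin n) (Fin n) k} (hS : S ≤ S.comap (Matrix.toLin' A))
    (h0 : ∀ x, P0 *ᵥ x ∈ S) (h1 : ∀ x ∈ S, P0 *ᵥ x = x) :
    (A * P0).trace = LinearMap.trace k S ((Matrix.toLin' A).restrict hS) := by
  let E : (Fin n → k) →ₗ[k] S := (Matrix.toLin' P0).codRestrict S fun x => by
    rw [Matrix.toLin'_apply]
    exact h0 x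
  have hE : ∀ x, (E x : Fin n → k) = P0 *ᵥ x := fun x => rfl
  have hE' : ∀ x : S, E x = x := fun x => Subtype.ext (h1 x x.2)
  have h2 : LinearMap.trace k S ((Matrix.toLin' A).restrict hS) =
      LinearMap.trace k (Fin n → k) ((S.subtype ∘ₗ ((Matrix.toLin' A).restrict hS)) ∘ₗ E) := by
    rw [LinearMap.trace_comp_comm']
    congr 1
    ext x
    rw [LinearMap.comp_apply, LinearMap.comp_apply, Submodule.subtype_apply, hE']
  have h3 : (S.subtype ∘ₗ ((Matrix.toLin' A).restrict hS)) ∘ₗ E = Matrix.toLin' (A * P0) := by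
    refine LinearMap.ext fun x => ?_
    rw [LinearMap.comp_apply, LinearMap.comp_apply, Submodule.subtype_apply,
      LinearMap.coe_restrict_apply, Matrix.toLin'_apply, Matrix.toLin'_apply, hE,
      Matrix.mulVec_mulVec]
  rw [h2, h3, Matrix.trace_toLin'_eq]

theorem exists_proj {k : Type} [Field k] {n : ℕ} (S : Submodule k (Fin n → k)) :
    ∃ P0 : Matrix (Fin n) (Fin n) k, (∀ x, P0 *ᵥ x ∈ S) ∧ ∀ x ∈ S, P0 *ᵥ x = x := by
  obtain ⟨f, hf⟩ := S.subtype.exists_leftInverse_of_injective S.ker_subtype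
  refine ⟨LinearMap.toMatrix' (S.subtype ∘ₗ f), fun x => ?_, fun x hx => ?_⟩
  · rw [LinearMap.toMatrix'_mulVec]
    exact (f x).2
  · rw [LinearMap.toMatrix'_mulVec]
    have h := LinearMap.congr_fun hf ⟨x, hx⟩
    change ((f x : S) : Fin n → k) = x
    change f x = ⟨x, hx⟩ at h
    rw [h]

section cp

variable {k k' : Type} [Field k] [Field k'] (e : k →+* ℂ) (e' : k' →+* ℂ) {n : ℕ}

theorem trace_map (A : Matrix (Fin n) (Fin n) k) (j : ℕ) : ((A.map e) ^ j).trace = e (A ^ j).trace := by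
  have h1 : (A.map e) ^ j = (A ^ j).map e := by
    rw [← RingHom.mapMatrix_apply, ← RingHom.mapMatrix_apply, map_pow]
  rw [h1, Matrix.trace, Matrix.trace, map_sum]
  rfl

theorem charpoly_map_eq (A : Matrix (Fin n) (Fin n) k) (A' : Matrix (Fin n) (Fin n) k')
    (h : ∀ j : ℕ, 1 ≤ j → e (A ^ j).trace = e' (A' ^ j).trace) :
    A.charpoly.map e = A'.charpoly.map e' := by
  rw [← Matrix.charpoly_map, ← Matrix.charpoly_map]
  apply Pool.Agent.TH658.Eq.charpoly_eq_of_traces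
  intro j
  rw [trace_map, trace_map]
  rcases Nat.eq_zero_or_pos j with hj | hj
  · subst hj
    rw [pow_zero, pow_zero, Matrix.trace_one, Matrix.trace_one, Fintype.card_fin, map_natCast,
      map_natCast]
  · exact h j hj

theorem charpoly_smul_map_eq (A : Matrix (Fin n) (Fin n) k) (A' : Matrix (Fin n) (Fin n) k')
    (h : ∀ j : ℕ, 1 ≤ j → e (A ^ j).trace = e' (A' ^ j).trace) (Q : ℕ) :
    (((Q : k)) • A).charpoly.map e = (((Q : k')) • A').charpoly.map e' := by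
  apply charpoly_map_eq
  intro j hj
  rw [_root_.smul_pow, _root_.smul_pow, Matrix.trace_smul, Matrix.trace_smul, smul_eq_mul, smul_eq_mul, map_mul,
    map_mul, h j hj, map_pow, map_pow, map_natCast, map_natCast]

end cp

variable {K : Type} [Field K] [NumberField K] {ℓ : ℕ} [Fact ℓ.Prime]

/-- the vectors fixed by the inertia elements in a subgroup -/
def SI {n : ℕ} (V : GK K →* GL (Fin n) ℚ_[ℓ]) (P : Ideal (OO K)) (U₁ : Subgroup (GK K)) :
    Submodule ℚ_[ℓ] (Fin n → ℚ_[ℓ]) where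
  carrier := {x | ∀ τ ∈ U₁, InInertia P τ → mt V τ *ᵥ x = x}
  zero_mem' := by
    intro τ _ _
    rw [Matrix.mulVec_zero]
  add_mem' := by
    intro x y hx hy τ h1 h2
    rw [Matrix.mulVec_add, hx τ h1 h2, hy τ h1 h2]
  smul_mem' := by
    intro c x hx τ h1 h2
    rw [Matrix.mulVec_smul, hx τ h1 h2]

theorem mem_SI {n : ℕ} (V : GK K →* GL (Fin n) ℚ_[ℓ]) (P : Ideal (OO K)) (U₁ : Subgroup (GK K))
    (x : Fin n → ℚ_[ℓ]) : x ∈ SI V P U₁ ↔ ∀ τ ∈ U₁, InInertia P τ → mt V τ *ᵥ x = x := Iff.rfl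

section one

variable {n m : ℕ} (V : GK K →* GL (Fin n) ℚ_[ℓ]) (hV : Continuous V)
  (W : GK K →* GL (Fin m) ℚ_[ℓ]) (u : ℤ)
  (φ : GK K → ℚ) (U : Subgroup (GK K)) (hUn : U.Normal) (hUo : IsOpen (U : Set (GK K)))
  (hU : ∀ x ∈ U, ∀ y, φ (x * y) = φ y)
  (hφ : ∀ y : GK K, cyc K ℓ ℚ_[ℓ] y ^ u * ((mt V y).trace - (mt W y).trace) = (φ y : ℚ_[ℓ]))
  {P : Ideal (OO K)} (hP : P.IsMaximal) {q : ℕ} (hq : 2 ≤ q) {σ : GK K} (hσ : FrobAt q P σ)
  (hℓP : (ℓ : OO K) ∉ P) (U₁ : Subgroup (GK K)) (hU₁n : U₁.Normal)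
  (hU₁o : IsOpen (U₁ : Set (GK K))) (hle : U₁ ≤ U)
  (hWu : ∀ τ ∈ U₁, InInertia P τ → IsNilpotent (mt W τ - 1))
  (hss : SS (Set.range (en (mh W)))) {r : ℝ} (hr : 0 < r)
  (hru : φ 1 ≠ 0 → (q : ℝ) ^ (2 * u) = r) (e : ℚ_[ℓ] →+* ℂ)

open Classical in
include hV hUn hUo hU hφ hP hq hσ hℓP hU₁n hU₁o hle hWu hss hr hru in
theorem trace_S (hWLE : WLE W P q r e) (hWGE : WGE W P q r e) {P0 : Matrix (Fin n) (Fin n) ℚ_[ℓ]}
    (h0 : ∀ x, P0 *ᵥ x ∈ SI V P U₁) (h1 : ∀ x ∈ SI V P U₁, P0 *ᵥ x = x) {k : ℕ} (hk : 1 ≤ k)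
    {g : GK K} (hg : FrobAt (q ^ k) P g⁻¹) :
    e (mt V g * P0).trace =
      (((mt V g).charpoly.map e).roots.filter (fun z => ‖z‖ ^ 2 ≤ r ^ k)).sum -
      ((((((q ^ k : ℕ) : ℚ_[ℓ])) • mt V g).charpoly.map e).roots.filter
        (fun z => ‖z‖ ^ 2 ≤ r ^ k)).sum := by
  obtain ⟨N, hN1, hN2, hN3⟩ := exists_mono V hV hP hℓP U₁ fun τ hτU hτ =>
    unipV V W u φ U hU hφ hP hσ hℓP U₁ hle hWu hτU hτ
  have hq1 : 1 ≤ q ^ k := Nat.one_le_pow _ _ (by omega)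
  have hrel := hN3 g (q ^ k) hq1 hg
  have hrel' : (Matrix.toLin' N) ∘ₗ (Matrix.toLin' (mt V g)) =
      (((q ^ k : ℕ) : ℚ_[ℓ])) • ((Matrix.toLin' (mt V g)) ∘ₗ (Matrix.toLin' N)) := by
    rw [← Matrix.toLin'_mul, hrel, map_smul, Matrix.toLin'_mul]
  have hker : LinearMap.ker (Matrix.toLin' N) = SI V P U₁ := by
    ext x
    rw [LinearMap.mem_ker, Matrix.toLin'_apply, hN1, mem_SI]
  have hS : LinearMap.ker (Matrix.toLin' N) ≤ (LinearMap.ker (Matrix.toLin' N)).comap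
      (Matrix.toLin' (mt V g)) := by
    intro x hx
    rw [Submodule.mem_comap, LinearMap.mem_ker, ← LinearMap.comp_apply, hrel',
      LinearMap.smul_apply, LinearMap.comp_apply, LinearMap.mem_ker.1 hx, map_zero, smul_zero]
  have hR : LinearMap.range (Matrix.toLin' N) ≤ (LinearMap.range (Matrix.toLin' N)).comap
      ((((q ^ k : ℕ) : ℚ_[ℓ])) • (Matrix.toLin' (mt V g))) := by
    rintro _ ⟨x, rfl⟩
    refine ⟨Matrix.toLin' (mt V g) x, ?_⟩
    rw [← LinearMap.comp_apply, hrel']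
    rfl
  have h2 := trace_ker e (Matrix.toLin' (mt V g)) (Matrix.toLin' N) hrel' hS hR
    (fun z => ‖z‖ ^ 2 ≤ r ^ k) (fun z hz => bound_ker V W u φ U hUn hUo hU hφ hP hq hℓP U₁ hU₁n
      hU₁o hle hss hr hru e hWLE hk hg _ (fun x hx => by rw [hker] at hx; exact hx) hS hz)
    (fun z hz => not_le.2 (bound_coker V W u φ U hUn hUo hU hφ hP hq hℓP U₁ hU₁n
      hU₁o hle hss hr hru e hWGE hk hg _ (fun y hy => (hN2 y).1 ?_) hR hz))
  · rw [trace_proj hS (fun x => by rw [hker]; exact h0 x) (fun x hx => h1 x (by rwa [hker] at hx)),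
      h2, ← map_smul]
    simp only [Matrix.charpoly_toLin']
  · funext i
    have h3 := hy (N *ᵥ Pi.single i 1) ⟨Pi.single i 1, Matrix.toLin'_apply _ _⟩
    rw [Matrix.dotProduct_mulVec, dotProduct_single_one] at h3
    exact h3

end one

end Pool.Agent.NH57.WM
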