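import Pool.Agent.R401.Tr10
import Pool.Agent.W880.UF2.Wild

/-!
# Transfer of local factors at places with monodromy: tame inertia is procyclic
-/

set_option autoImplicit false

namespace Pool.Agent.NH57.WM

open NumberField Pool.Agent.W258.FM

section group

theorem exists_gen {I : Type*} [Group I] [Finite I] {D : Type*} [CommRing D] [IsDomain D]
    (f : I →* Dˣ) : ∃ c : I, ∀ τ : I, ∃ n : ℤ, f (τ * (c ^ n)⁻¹) = 1 := by
  have : Finite f.range := Set.finite_range f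
  have : IsCyclic f.range :=
    isCyclic_of_injective_ringHom ((Units.coeHom D).comp f.range.subtype)
      (Units.val_injective.comp Subtype.val_injective)
  obtain ⟨⟨_, c, rfl⟩, hg⟩ := IsCyclic.exists_generator (α := f.range)
  refine ⟨c, fun τ => ?_⟩
  obtain ⟨n, hn⟩ := hg ⟨f τ, τ, rfl⟩
  refine ⟨n, ?_⟩
  have h1 : f c ^ n = f τ := congrArg Subtype.val hn
  rw [map_mul, map_inv, map_zpow, h1, mul_inv_cancel]

end group

section general

variable {R : Type*} [CommRing R] [IsDedekindDomain R] {G : Type*} [Group G]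
  [MulSemiringAction G R]

/-- the tame character -/
theorem exists_char [Finite G] {P : Ideal R} (hP : P.IsMaximal) (h0 : P ≠ ⊥) :
    ∃ f : inerGroup (G := G) P →* (R ⧸ P)ˣ, ∀ w, f w = 1 →
      ∀ y ∈ P, (w : G) • y - y ∈ P ^ 2 := by
  obtain ⟨π, hπ, hπ2, hsp⟩ := exists_unif hP.isPrime h0
  have hex : ∀ τ : inerGroup (G := G) P, ∃ u : R, (τ : G) • π - u * π ∈ P ^ 2 := fun τ =>
    hsp _ (Iner.mem τ.2 π hπ)
  choose θ hθ using hex
  have huniq : ∀ (g : G) (u v : R), g • π - u * π ∈ P ^ 2 → g • π - v * π ∈ P ^ 2 →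
      Ideal.Quotient.mk P u = Ideal.Quotient.mk P v := by
    intro g u v hu hv
    rw [Ideal.Quotient.eq]
    refine cancel_unif hP hπ hπ2 ?_
    have e : (u - v) * π = (g • π - v * π) - (g • π - u * π) := by ring
    rw [e]
    exact Ideal.sub_mem _ hv hu
  let f : inerGroup (G := G) P →* R ⧸ P :=
    { toFun := fun τ => Ideal.Quotient.mk P (θ τ)
      map_one' := by
        rw [← map_one (Ideal.Quotient.mk P)]
        exact huniq 1 _ _ (by simpa using hθ 1) (by simp)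
      map_mul' := by
        intro a b
        rw [← map_mul]
        refine huniq ((a * b : inerGroup (G := G) P) : G) _ _ (hθ _) ?_
        have e : ((a * b : inerGroup (G := G) P) : G) • π - (θ a * θ b) * π =
            ((a : G) • ((b : G) • π) - θ a * ((b : G) • π)) +
              θ a * ((b : G) • π - θ b * π) := by
          rw [Subgroup.coe_mul, mul_smul]; ring
        rw [e]
        refine Ideal.add_mem _ ?_ (Ideal.mul_mem_left _ _ (hθ b))
        exact mult_all hπ hsp a.2 (hθ a) _ (Iner.mem b.2 π hπ) }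
  refine ⟨f.toHomUnits, ?_⟩
  intro w hw y hy
  have hw' : Ideal.Quotient.mk P (θ w) = Ideal.Quotient.mk P 1 := by
    have h1 := congrArg Units.val hw
    rw [map_one]
    exact h1
  have h1 : θ w - 1 ∈ P := Ideal.Quotient.eq.1 hw'
  have h2 := mult_all hπ hsp w.2 (hθ w) y hy
  have e : (w : G) • y - y = ((w : G) • y - θ w * y) + (θ w - 1) * y := by ring
  rw [e]
  refine Ideal.add_mem _ h2 ?_
  rw [pow_two]
  exact Ideal.mul_mem_mul h1 hy

variable [FaithfulSMul G R]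

theorem wild_pow [Finite G] {P : Ideal R} (hP : P.IsMaximal) {l : ℕ}
    (hlp : l.Prime) (hlP : (l : R) ∈ P) {w : G} (hwI : Iner P w)
    (hwt : ∀ y ∈ P, w • y - y ∈ P ^ 2) : ∃ a : ℕ, w ^ (l ^ a) = 1 := by
  obtain ⟨a, M, hM, hord⟩ := Nat.exists_eq_pow_mul_and_not_dvd
    (show orderOf w ≠ 0 from (orderOf_pos w).ne') l hlp.ne_one
  refine ⟨a, ?_⟩
  have hMP : (M : R) ∉ P := by
    intro h
    have hco : Nat.Coprime M l := ((Nat.Prime.coprime_iff_not_dvd hlp).2 hM).symm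
    have hb := Nat.gcd_eq_gcd_ab M l
    rw [hco] at hb
    apply hP.ne_top
    rw [Ideal.eq_top_iff_one]
    have e : (1 : R) = (M : R) * ((M.gcdA l : ℤ) : R) + (l : R) * ((M.gcdB l : ℤ) : R) := by
      have := congrArg (fun z : ℤ => (z : R)) hb
      push_cast at this
      exact this
    rw [e]
    exact Ideal.add_mem _ (Ideal.mul_mem_right _ _ h) (Ideal.mul_mem_right _ _ hlP)
  refine key hP hMP ?_ (hwI.pow _) (Pool.Agent.W880.UF2.pow_triv hwI hwt _)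
  rw [← pow_mul, ← hord]
  exact pow_orderOf_eq_one w

theorem tame_gen [Finite G] {P : Ideal R} (hP : P.IsMaximal) (h0 : P ≠ ⊥) {l : ℕ}
    (hlp : l.Prime) (hlP : (l : R) ∈ P) :
    ∃ c : G, ∀ τ : G, Iner P τ → ∃ (n : ℤ) (a : ℕ), (τ * (c ^ n)⁻¹) ^ (l ^ a) = 1 := by
  obtain ⟨f, hf⟩ := exists_char (G := G) hP h0
  obtain ⟨c, hc⟩ := exists_gen f
  refine ⟨c, fun τ hτ => ?_⟩
  obtain ⟨n, hn⟩ := hc ⟨τ, hτ⟩
  obtain ⟨a, ha⟩ := wild_pow hP hlp hlP
    (((⟨τ, hτ⟩ : inerGroup (G := G) P) * (c ^ n)⁻¹ : inerGroup (G := G) P)).2 (hf _ hn)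
  exact ⟨n, a, ha⟩

end general

section absolute

open Pool.Agent.W569.FM Pool.Agent.W401.Cheb

theorem cyc_inert (F : Type) [Field F] [NumberField F] {p l : ℕ} (hp : p.Prime) (hl : l.Prime)
    (hpl : p ≠ l) (H : Subgroup (GF F)) (hHo : IsOpen (H : Set (GF F))) (E : Type) [Group E]
    (hE : IsPGroup p E) (f : H →* E) (hopen : IsOpen (f.ker : Set H)) (P : Ideal (OO F))
    (hP : P.IsMaximal) (hlP : (l : OO F) ∈ P) :
    ∃ e : E, ∀ τ : H, InInertia P (τ : GF F) → f τ ∈ Subgroup.zpowers e := by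
  -- the field
  have hW : IsOpen (((↑) : H → GF F) '' (f.ker : Set H)) :=
    hHo.isOpenMap_subtype_val _ hopen
  have hW1 : ((↑) : H → GF F) '' (f.ker : Set H) ∈ nhds (1 : GF F) :=
    hW.mem_nhds ⟨1, f.ker.one_mem, rfl⟩
  obtain ⟨L, hfd, hnorm, hLW⟩ :=
    (krullTopology_mem_nhds_one_iff_of_normal F (AlgebraicClosure F) _).1 hW1
  have hgal : IsGalois F L := ⟨⟩
  have hnf : NumberField L := NumberField.of_module_finite F L
  set r : GF F →* Gal(L/F) := AlgEquiv.restrictNormalHom L with hr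
  have hrk : r.ker = L.fixingSubgroup := by
    rw [hr, IntermediateField.restrictNormalHom_ker]
  -- the prime
  set φ : 𝓞 L →+* OO F := algebraMap (𝓞 L) (OO F) with hφ
  have hcomm : ∀ (τ : GF F) (x : 𝓞 L), φ (r τ • x) = τ • φ x := by
    intro τ x
    apply RingOfIntegers.ext
    exact AlgEquiv.restrictNormal_commutes τ L (x : L)
  set P0 : Ideal (𝓞 L) := P.comap φ with hP0
  have hP0p : P0.IsPrime := by
    have := hP.isPrime
    exact Ideal.comap_isPrime φ P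
  have hlP0 : (l : 𝓞 L) ∈ P0 := by
    rw [hP0, Ideal.mem_comap, map_natCast]
    exact hlP
  have hP0b : P0 ≠ ⊥ := by
    intro h
    rw [h, Ideal.mem_bot] at hlP0
    exact hl.ne_zero (by exact_mod_cast hlP0)
  have hmax : P0.IsMaximal := hP0p.isMaximal hP0b
  have hfaith : FaithfulSMul Gal(L/F) (𝓞 L) := by
    refine ⟨?_⟩
    intro a b hab
    ext x
    obtain ⟨y, z, hz, rfl⟩ := IsFractionRing.div_surjective (A := 𝓞 L) x
    have ey : a (algebraMap (𝓞 L) L y) = b (algebraMap (𝓞 L) L y) :=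
      congrArg (algebraMap (𝓞 L) L) (hab y)
    have ez : a (algebraMap (𝓞 L) L z) = b (algebraMap (𝓞 L) L z) :=
      congrArg (algebraMap (𝓞 L) L) (hab z)
    rw [map_div₀, map_div₀, ey, ez]
  have hfaith' : FaithfulSMul (H.map r) (𝓞 L) := by
    refine ⟨?_⟩
    intro a b hab
    exact Subtype.ext (FaithfulSMul.eq_of_smul_eq_smul (α := 𝓞 L) fun x => hab x)
  obtain ⟨⟨_, c0, hc0, rfl⟩, hc⟩ := tame_gen (G := H.map r) hmax hP0b hl hlP0
  refine ⟨f ⟨c0, hc0⟩, fun τ hτ => ?_⟩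
  obtain ⟨n, a, ha⟩ := hc ⟨r τ, τ, τ.2, rfl⟩ (by
    intro x
    change r τ • x - x ∈ P0
    rw [hP0, Ideal.mem_comap, map_sub, hcomm]
    exact hτ (φ x))
  have ha' : (r τ * ((r c0) ^ n)⁻¹) ^ (l ^ a) = 1 := congrArg Subtype.val ha
  set w : H := τ * ((⟨c0, hc0⟩ : H) ^ n)⁻¹ with hw
  have h1 : r ((w : GF F) ^ (l ^ a)) = 1 := by
    rw [map_pow, ← ha']
    congr 1
    rw [hw]
    push_cast
    rw [map_mul, map_inv, map_zpow]
  have h2 : (w : GF F) ^ (l ^ a) ∈ L.fixingSubgroup := by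
    rw [← hrk]
    exact h1
  obtain ⟨v, hv, hv2⟩ := hLW h2
  have h3 : v = w ^ (l ^ a) := Subtype.ext (by rw [hv2]; push_cast; rfl)
  have h4 : f w ^ (l ^ a) = 1 := by
    rw [← map_pow, ← h3]
    exact hv
  obtain ⟨k, hk⟩ := hE (f w)
  have h5 : f w = 1 := by
    have hd1 := orderOf_dvd_of_pow_eq_one h4
    have hd2 := orderOf_dvd_of_pow_eq_one hk
    have hcop : Nat.Coprime (l ^ a) (p ^ k) :=
      Nat.Coprime.pow _ _ ((Nat.coprime_primes hl hp).2 (Ne.symm hpl))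
    have : orderOf (f w) ∣ 1 := by
      have := Nat.dvd_gcd hd1 hd2
      rwa [hcop.gcd_eq_one] at this
    exact orderOf_eq_one_iff.1 (Nat.dvd_one.1 this)
  rw [hw, map_mul, map_inv, map_zpow, mul_inv_eq_one] at h5
  exact ⟨n, h5.symm⟩

/-- cyclic `p`-groups -/
theorem zpowers_total {E : Type*} [Group E] {p : ℕ} (hp : p.Prime) (hE : IsPGroup p E) {e x y : E}
    (hx : x ∈ Subgroup.zpowers e) (hy : y ∈ Subgroup.zpowers e) :
    x ∈ Subgroup.zpowers y ∨ y ∈ Subgroup.zpowers x := by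
  obtain ⟨k, hk⟩ := hE e
  obtain ⟨a, rfl⟩ := hx
  obtain ⟨b, rfl⟩ := hy
  have hpow : ∀ z : ℤ, e ^ (z * (p : ℤ) ^ k) = 1 := by
    intro z
    rw [mul_comm, zpow_mul]
    have : e ^ ((p : ℤ) ^ k) = 1 := by
      rw [← Nat.cast_pow, zpow_natCast]
      exact hk
    rw [this, one_zpow]
  -- the main step
  have key : ∀ a b : ℤ, ∀ i j : ℕ, i ≤ j → (Int.gcd a ((p : ℤ) ^ k) = p ^ i) →
      (Int.gcd b ((p : ℤ) ^ k) = p ^ j) → e ^ b ∈ Subgroup.zpowers (e ^ a) := by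
    intro a b i j hij ha hb
    have h1 := Int.gcd_eq_gcd_ab a ((p : ℤ) ^ k)
    rw [ha] at h1
    have h2 : ((p ^ i : ℕ) : ℤ) ∣ b := by
      have h3 : ((Int.gcd b ((p : ℤ) ^ k) : ℕ) : ℤ) ∣ b := Int.gcd_dvd_left _ _
      rw [hb] at h3
      exact dvd_trans (by exact_mod_cast pow_dvd_pow p hij) h3
    obtain ⟨c, hc⟩ := h2
    refine ⟨Int.gcdA a ((p : ℤ) ^ k) * c, ?_⟩
    change (e ^ a) ^ (Int.gcdA a ((p : ℤ) ^ k) * c) = e ^ b
    rw [← zpow_mul, hc, h1]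
    have h3 : (a * Int.gcdA a ((p : ℤ) ^ k) + (p : ℤ) ^ k * Int.gcdB a ((p : ℤ) ^ k)) * c =
        a * (Int.gcdA a ((p : ℤ) ^ k) * c) + (Int.gcdB a ((p : ℤ) ^ k) * c) * (p : ℤ) ^ k := by ring
    rw [h3, zpow_add, hpow, mul_one]
  have hgcd : ∀ a : ℤ, ∃ i : ℕ, Int.gcd a ((p : ℤ) ^ k) = p ^ i := by
    intro a
    have h1 : Int.gcd a ((p : ℤ) ^ k) ∣ p ^ k := by
      have := Int.gcd_dvd_right a ((p : ℤ) ^ k)
      exact_mod_cast this
    obtain ⟨i, _, hi⟩ := (Nat.dvd_prime_pow hp).1 h1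
    exact ⟨i, hi⟩
  obtain ⟨i, hi⟩ := hgcd a
  obtain ⟨j, hj⟩ := hgcd b
  rcases le_total i j with hij | hij
  · exact Or.inr (key a b i j hij hi hj)
  · exact Or.inl (key b a j i hij hj hi)

end absolute

section closure

open NumberField Filter Topology Pool.Agent.W401.Cheb Pool.Agent.W569.FM Pool.Agent.R401.Tr9

variable {K : Type} [Field K] [NumberField K] {ℓ : ℕ} [Fact ℓ.Prime] {n : ℕ}

theorem total_closed (ρ : GK K →* Matrix (Fin n) (Fin n) ℚ_[ℓ]) (hρ : Continuous ρ)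
    (H : Subgroup (GK K)) (hH : IsOpen (H : Set (GK K)))
    (hU : ∀ x ∈ H, Tendsto (fun k : ℕ => ρ x ^ (ℓ ^ k)) atTop (𝓝 1)) {l : ℕ} (hl : l.Prime)
    (hlℓ : ℓ ≠ l) {P : Ideal (OO K)} (hP : P.IsMaximal) (hlP : (l : OO K) ∈ P) {τ₁ τ₂ : GK K}
    (h1H : τ₁ ∈ H) (h2H : τ₂ ∈ H) (h1 : InInertia P τ₁) (h2 : InInertia P τ₂)
    (Z₁ Z₂ : Subgroup (GK K)) (hZ₁ : IsClosed (Z₁ : Set (GK K))) (hZ₂ : IsClosed (Z₂ : Set (GK K)))
    (hk₁ : ρ.ker ≤ Z₁) (hk₂ : ρ.ker ≤ Z₂) (hτ₁ : τ₁ ∈ Z₁) (hτ₂ : τ₂ ∈ Z₂) :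
    τ₂ ∈ Z₁ ∨ τ₁ ∈ Z₂ := by
  classical
  by_contra hcon
  push Not at hcon
  obtain ⟨hc1, hc2⟩ := hcon
  have hn1 : (fun u => τ₂ * u) ⁻¹' (Z₁ : Set (GK K))ᶜ ∈ 𝓝 (1 : GK K) := by
    apply (hZ₁.isOpen_compl.preimage (continuous_const.mul continuous_id)).mem_nhds
    change τ₂ * 1 ∉ Z₁
    rwa [mul_one]
  have hn2 : (fun u => τ₁ * u) ⁻¹' (Z₂ : Set (GK K))ᶜ ∈ 𝓝 (1 : GK K) := by
    apply (hZ₂.isOpen_compl.preimage (continuous_const.mul continuous_id)).mem_nhds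
    change τ₁ * 1 ∉ Z₂
    rwa [mul_one]
  obtain ⟨s, hs1, hs2, hs3⟩ := mem_nhds_iff.1 (inter_mem hn1 hn2)
  obtain ⟨U, hUs⟩ := ProfiniteGrp.exist_openNormalSubgroup_sub_open_nhds_of_one hs2 hs3
  have hUn : (U : Subgroup (GK K)).Normal := U.isNormal'
  have hUo : IsOpen (((U : Subgroup (GK K)) : Subgroup (GK K)) : Set (GK K)) := U.isOpen'
  set W : Subgroup (GK K) := ρ.ker ⊔ (U : Subgroup (GK K)) with hW
  have hWo : IsOpen (W : Set (GK K)) := Subgroup.isOpen_mono le_sup_right hUo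
  have hWn : W.Normal := Subgroup.sup_normal _ _
  have hWu : ∀ w ∈ W, ∃ u ∈ (U : Subgroup (GK K)), ∃ a ∈ ρ.ker, w = u * a := by
    intro w hw
    obtain ⟨a, ha, u, hu, hau⟩ := Subgroup.mem_sup_of_normal_right.1 hw
    refine ⟨u, hu, u⁻¹ * a * u, ?_, ?_⟩
    · have := (inferInstance : ρ.ker.Normal).conj_mem a ha u⁻¹
      rwa [inv_inv] at this
    · rw [← hau]
      group
  have hpow : ∀ x ∈ H, ∃ k : ℕ, x ^ (ℓ ^ k) ∈ W := by
    intro x hx
    have hcomp : IsClosed (ρ '' (W : Set (GK K))ᶜ) :=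
      (hWo.isClosed_compl.isCompact.image hρ).isClosed
    have h2 : (1 : Matrix (Fin n) (Fin n) ℚ_[ℓ]) ∉ ρ '' (W : Set (GK K))ᶜ := by
      rintro ⟨y, hy, hy1⟩
      exact hy ((le_sup_left : ρ.ker ≤ W) hy1)
    have h3 := (hU x hx).eventually (hcomp.isOpen_compl.mem_nhds h2)
    obtain ⟨k, hk⟩ := h3.exists
    refine ⟨k, ?_⟩
    by_contra hcon
    exact hk ⟨x ^ (ℓ ^ k), hcon, map_pow ρ x _⟩
  set f : H →* (GK K ⧸ W) := (QuotientGroup.mk' W).comp H.subtype with hf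
  -- the image
  have hE : IsPGroup ℓ f.range := by
    rintro ⟨_, x, rfl⟩
    obtain ⟨k, hk⟩ := hpow x x.2
    refine ⟨k, Subtype.ext ?_⟩
    change f x ^ (ℓ ^ k) = 1
    rw [← map_pow]
    exact (QuotientGroup.eq_one_iff _).2 hk
  have hopen : IsOpen (f.rangeRestrict.ker : Set H) := by
    have h2 : (f.rangeRestrict.ker : Set H) = H.subtype ⁻¹' (W : Set (GK K)) := by
      ext x
      rw [SetLike.mem_coe, MonoidHom.ker_rangeRestrict, MonoidHom.mem_ker]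
      exact QuotientGroup.eq_one_iff _
    rw [h2]
    exact hWo.preimage continuous_subtype_val
  obtain ⟨e, he⟩ := cyc_inert K (Fact.out : ℓ.Prime) hl hlℓ H hH f.range hE f.rangeRestrict hopen P hP hlP
  have key : ∀ (a b : GK K) (ha : a ∈ H) (hb : b ∈ H) (Z : Subgroup (GK K)), ρ.ker ≤ Z → a ∈ Z →
      (∀ u ∈ (U : Subgroup (GK K)), b * u ∉ Z) →
      f.rangeRestrict ⟨b, hb⟩ ∈ Subgroup.zpowers (f.rangeRestrict ⟨a, ha⟩) → False := by
    intro a b ha hb Z hkZ haZ hbZ hmem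
    obtain ⟨j, hj⟩ := hmem
    have h3 : ((a ^ j : GK K) : GK K ⧸ W) = (b : GK K ⧸ W) := congrArg Subtype.val hj
    have h4 := QuotientGroup.eq.1 h3.symm
    obtain ⟨u, hu, c, hc, huc⟩ := hWu _ h4
    apply hbZ u hu
    have h5 : b * u = a ^ j * c⁻¹ := by
      rw [eq_mul_inv_iff_mul_eq, mul_assoc, ← huc, mul_inv_cancel_left]
    rw [h5]
    exact Z.mul_mem (Z.zpow_mem haZ j) (Z.inv_mem (hkZ hc))
  rcases zpowers_total (Fact.out : ℓ.Prime) hE (he ⟨τ₁, h1H⟩ h1) (he ⟨τ₂, h2H⟩ h2) with h3 | h3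
  · exact key τ₂ τ₁ h2H h1H Z₂ hk₂ hτ₂ (fun u hu => (hs1 (hUs hu)).2) h3
  · exact key τ₁ τ₂ h1H h2H Z₁ hk₁ hτ₁ (fun u hu => (hs1 (hUs hu)).1) h3

/-- the elements which fix all vectors and linear forms fixed by `A` -/
def stab (ρ : GK K →* Matrix (Fin n) (Fin n) ℚ_[ℓ]) (A : Matrix (Fin n) (Fin n) ℚ_[ℓ]) :
    Subgroup (GK K) where
  carrier := {g | (∀ x, A.mulVec x = x → (ρ g).mulVec x = x) ∧
    ∀ y, Matrix.vecMul y A = y → Matrix.vecMul y (ρ g) = y}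
  mul_mem' := by
    rintro a b ⟨ha, ha'⟩ ⟨hb, hb'⟩
    refine ⟨fun x hx => ?_, fun y hy => ?_⟩
    · rw [map_mul, ← Matrix.mulVec_mulVec, hb x hx, ha x hx]
    · rw [map_mul, ← Matrix.vecMul_vecMul, ha' y hy, hb' y hy]
  one_mem' := by
    refine ⟨fun x _ => ?_, fun y _ => ?_⟩
    · rw [map_one, Matrix.one_mulVec]
    · rw [map_one, Matrix.vecMul_one]
  inv_mem' := by
    rintro a ⟨ha, ha'⟩
    refine ⟨fun x hx => ?_, fun y hy => ?_⟩
    · conv_lhs => rw [← ha x hx]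
      rw [Matrix.mulVec_mulVec, ← map_mul, inv_mul_cancel, map_one, Matrix.one_mulVec]
    · conv_lhs => rw [← ha' y hy]
      rw [Matrix.vecMul_vecMul, ← map_mul, mul_inv_cancel, map_one, Matrix.vecMul_one]

theorem ker_le_stab (ρ : GK K →* Matrix (Fin n) (Fin n) ℚ_[ℓ]) (A : Matrix (Fin n) (Fin n) ℚ_[ℓ]) :
    ρ.ker ≤ stab ρ A := by
  intro g hg
  rw [MonoidHom.mem_ker] at hg
  refine ⟨fun x _ => ?_, fun y _ => ?_⟩
  · rw [hg, Matrix.one_mulVec]
  · rw [hg, Matrix.vecMul_one]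

theorem stab_closed (ρ : GK K →* Matrix (Fin n) (Fin n) ℚ_[ℓ]) (hρ : Continuous ρ)
    (A : Matrix (Fin n) (Fin n) ℚ_[ℓ]) : IsClosed (stab ρ A : Set (GK K)) := by
  have h1 : (stab ρ A : Set (GK K)) =
      (⋂ x : Fin n → ℚ_[ℓ], {g | A.mulVec x = x → (ρ g).mulVec x = x}) ∩
      ⋂ y : Fin n → ℚ_[ℓ], {g | Matrix.vecMul y A = y → Matrix.vecMul y (ρ g) = y} := by
    ext g
    simp only [Set.mem_inter_iff, Set.mem_iInter]
    rfl
  rw [h1]
  refine IsClosed.inter (isClosed_iInter fun x => ?_) (isClosed_iInter fun y => ?_)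
  · by_cases hx : A.mulVec x = x
    · have h2 : {g : GK K | A.mulVec x = x → (ρ g).mulVec x = x} = {g | (ρ g).mulVec x = x} := by
        ext g
        exact ⟨fun h => h hx, fun h _ => h⟩
      rw [h2]
      exact isClosed_eq (hρ.matrix_mulVec continuous_const) continuous_const
    · have h2 : {g : GK K | A.mulVec x = x → (ρ g).mulVec x = x} = Set.univ := by
        ext g
        exact ⟨fun _ => trivial, fun _ h => absurd h hx⟩
      rw [h2]
      exact isClosed_univ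
  · by_cases hy : Matrix.vecMul y A = y
    · have h2 : {g : GK K | Matrix.vecMul y A = y → Matrix.vecMul y (ρ g) = y} =
          {g | Matrix.vecMul y (ρ g) = y} := by
        ext g
        exact ⟨fun h => h hy, fun h _ => h⟩
      rw [h2]
      exact isClosed_eq (continuous_const.matrix_vecMul hρ) continuous_const
    · have h2 : {g : GK K | Matrix.vecMul y A = y → Matrix.vecMul y (ρ g) = y} = Set.univ := by
        ext g
        exact ⟨fun _ => trivial, fun _ h => absurd h hy⟩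
      rw [h2]
      exact isClosed_univ

end closure

end Pool.Agent.NH57.WM
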