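import Pool.Agent.NH57.WM.Lin

/-!
# Transfer of local factors at places with monodromy: roots and relations
-/

set_option autoImplicit false

namespace Pool.Agent.NH57.WM

open Polynomial Module Matrix

section

variable {k : Type} [Field k] (e : k →+* ℂ) {n : ℕ} (A : Matrix (Fin n) (Fin n) k)

theorem restrict_aeval (S : Submodule k (Fin n → k)) (hS : S ≤ S.comap (Matrix.toLin' A)) (M : ℕ)
    (p : k[X]) : ∀ x : S, ((aeval (((Matrix.toLin' A).restrict hS) ^ M) p x : S) : Fin n → k) =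
      (aeval (A ^ M) p) *ᵥ (x : Fin n → k) := by
  have h0 : ∀ (j : ℕ) (x : S), (((((Matrix.toLin' A).restrict hS) ^ M) ^ j) x : Fin n → k) =
      ((A ^ M) ^ j) *ᵥ (x : Fin n → k) := by
    intro j x
    rw [← pow_mul, ← pow_mul]
    generalize M * j = i
    induction i with
    | zero => rw [pow_zero, pow_zero, Module.End.one_apply, Matrix.one_mulVec]
    | succ i ih =>
      rw [pow_succ', pow_succ', Module.End.mul_apply, LinearMap.coe_restrict_apply,
        Matrix.toLin'_apply, ih, Matrix.mulVec_mulVec]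
  intro x
  induction p using Polynomial.induction_on' with
  | add p r hp hr =>
    rw [map_add, map_add, LinearMap.add_apply, Matrix.add_mulVec, ← hp, ← hr]
    rfl
  | monomial j c =>
    rw [aeval_monomial, aeval_monomial, Algebra.algebraMap_eq_smul_one,
      Algebra.algebraMap_eq_smul_one, smul_mul_assoc, smul_mul_assoc, one_mul, one_mul,
      LinearMap.smul_apply, Matrix.smul_mulVec, ← h0]
    rfl

theorem mapQ_aeval (R : Submodule k (Fin n → k)) (hR : R ≤ R.comap (Matrix.toLin' A)) (M : ℕ)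
    (p : k[X]) : ∀ x : Fin n → k, aeval ((R.mapQ R (Matrix.toLin' A) hR) ^ M) p (R.mkQ x) =
      R.mkQ ((aeval (A ^ M) p) *ᵥ x) := by
  have h0 : ∀ (j : ℕ) (x : Fin n → k), (((R.mapQ R (Matrix.toLin' A) hR) ^ M) ^ j) (R.mkQ x) =
      R.mkQ (((A ^ M) ^ j) *ᵥ x) := by
    intro j x
    rw [← pow_mul, ← pow_mul]
    generalize M * j = i
    induction i with
    | zero => rw [pow_zero, pow_zero, Module.End.one_apply, Matrix.one_mulVec]
    | succ i ih =>
      rw [pow_succ', pow_succ', Module.End.mul_apply, ih, ← Matrix.mulVec_mulVec]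
      rfl
  intro x
  induction p using Polynomial.induction_on' with
  | add p r hp hr =>
    rw [map_add, map_add, LinearMap.add_apply, Matrix.add_mulVec, hp, hr, map_add]
  | monomial j c =>
    rw [aeval_monomial, aeval_monomial, Algebra.algebraMap_eq_smul_one,
      Algebra.algebraMap_eq_smul_one, smul_mul_assoc, smul_mul_assoc, one_mul, one_mul,
      LinearMap.smul_apply, Matrix.smul_mulVec, h0, map_smul]

theorem exists_vec (S : Submodule k (Fin n → k)) (hS : S ≤ S.comap (Matrix.toLin' A)) {z : ℂ}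
    (hz : z ∈ (((Matrix.toLin' A).restrict hS).charpoly.map e).roots) (M : ℕ) :
    ∃ p : k[X], Irreducible p ∧ (p.map e).IsRoot (z ^ M) ∧ ∃ x ∈ S, x ≠ 0 ∧
      (aeval (A ^ M) p) *ᵥ x = 0 := by
  obtain ⟨p, hp, hpz, hinj⟩ := exists_factor e _ hz M
  refine ⟨p, hp, hpz, ?_⟩
  rw [injective_iff_map_eq_zero] at hinj
  push Not at hinj
  obtain ⟨x, hx, hx0⟩ := hinj
  refine ⟨x, x.2, fun h => hx0 (Subtype.ext h), ?_⟩
  rw [← restrict_aeval A S hS, hx]
  rfl

theorem exists_row (R : Submodule k (Fin n → k)) (hR : R ≤ R.comap (Matrix.toLin' A)) {z : ℂ}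
    (hz : z ∈ ((R.mapQ R (Matrix.toLin' A) hR).charpoly.map e).roots) (M : ℕ) :
    ∃ p : k[X], Irreducible p ∧ (p.map e).IsRoot (z ^ M) ∧ ∃ y : Fin n → k, y ≠ 0 ∧
      (∀ x ∈ R, y ⬝ᵥ x = 0) ∧ y ᵥ* (aeval (A ^ M) p) = 0 := by
  obtain ⟨p, hp, hpz, hinj⟩ := exists_factor e _ hz M
  refine ⟨p, hp, hpz, ?_⟩
  rw [LinearMap.injective_iff_surjective] at hinj
  set T := aeval ((R.mapQ R (Matrix.toLin' A) hR) ^ M) p with hT
  have h1 : LinearMap.range T < ⊤ := lt_top_iff_ne_top.2 fun h => hinj (LinearMap.range_eq_top.1 h)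
  obtain ⟨f, hf, hfT⟩ := Submodule.exists_le_ker_of_lt_top _ h1
  set g : Module.Dual k (Fin n → k) := f ∘ₗ R.mkQ with hg
  obtain ⟨y, hy⟩ := (dotProductEquiv k (Fin n)).surjective g
  have hyx : ∀ x, y ⬝ᵥ x = f (R.mkQ x) := fun x => LinearMap.congr_fun hy x
  refine ⟨y, ?_, ?_, ?_⟩
  · rintro rfl
    apply hf
    refine LinearMap.ext fun c => ?_
    obtain ⟨x, rfl⟩ := R.mkQ_surjective c
    rw [← hyx, zero_dotProduct, LinearMap.zero_apply]
  · intro x hx
    rw [hyx, Submodule.mkQ_apply, (Submodule.Quotient.mk_eq_zero R).2 hx, map_zero]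
  · apply (dotProductEquiv k (Fin n)).injective
    refine LinearMap.ext fun x => ?_
    change (y ᵥ* (aeval (A ^ M) p)) ⬝ᵥ x = (0 : Fin n → k) ⬝ᵥ x
    rw [zero_dotProduct, ← Matrix.dotProduct_mulVec, hyx, ← mapQ_aeval A R hR, ← hT]
    exact hfT ⟨_, rfl⟩

open scoped Pointwise in
theorem roots_smul {V : Type} [AddCommGroup V] [Module k V] [FiniteDimensional k V] (T : V →ₗ[k] V)
    {Q : k} (hQ : Q ≠ 0) {z : ℂ} (hz : z ∈ ((Q • T).charpoly.map e).roots) :
    z / e Q ∈ (T.charpoly.map e).roots := by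
  classical
  let b := finBasis k V
  have hQe : e Q ≠ 0 := (map_ne_zero e).2 hQ
  have h1 := (mem_roots (roots_ne e _)).1 hz
  refine (mem_roots (roots_ne e _)).2 ?_
  rw [← LinearMap.charpoly_toMatrix _ b, ← Matrix.charpoly_map,
    ← Matrix.mem_spectrum_iff_isRoot_charpoly] at h1 ⊢
  have h2 : (LinearMap.toMatrix b b (Q • T)).map e = e Q • (LinearMap.toMatrix b b T).map e := by
    rw [map_smul]
    ext i j
    simp
  rw [h2] at h1
  have h3 : z ∈ (Units.mk0 (e Q) hQe) • spectrum ℂ ((LinearMap.toMatrix b b T).map e) := by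
    rw [← spectrum.unit_smul_eq_smul]
    exact h1
  obtain ⟨y, hy, hyz⟩ := Set.mem_smul_set.1 h3
  have h4 : z = e Q * y := by
    rw [← hyz]
    rfl
  rw [h4, mul_div_cancel_left₀ _ hQe]
  exact hy

end

end Pool.Agent.NH57.WM
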