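import Pool.Agent.NH57.WM.Avg
import Pool.Agent.NH57.WM.Aut

/-!
# Transfer of local factors at places with monodromy: the local factor
-/

set_option autoImplicit false

namespace Pool.Agent.NH57.WM

open NumberField Filter Topology IsDedekindDomain Pool.Agent.W401.Cheb Pool.Agent.R401.Sup
open Pool.Agent.W569.FM Pool.Agent.R401.Img Pool.Agent.R401.Sup3 Pool.Agent.R401.Sup4
open Pool.Agent.R401.Tr3 Pool.Agent.R401.Tr4 Pool.Agent.R401.Tr5 Module Polynomial Matrix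
open Pool.Agent.R401.Tr8 Pool.Agent.R401.Tr9

variable {K : Type} [Field K] [NumberField K]

/-- the traces on `V` -/
theorem trace_V {ℓ : ℕ} [Fact ℓ.Prime] {n m : ℕ} (V : GK K →* GL (Fin n) ℚ_[ℓ])
    (W : GK K →* GL (Fin m) ℚ_[ℓ]) (u : ℤ) (φ : GK K → ℚ)
    (hφ : ∀ y : GK K, cyc K ℓ ℚ_[ℓ] y ^ u * ((mt V y).trace - (mt W y).trace) = (φ y : ℚ_[ℓ]))
    {P : Ideal (OO K)} (hP : P.IsMaximal) {q : ℕ} (hℓP : (ℓ : OO K) ∉ P) {k : ℕ} {g : GK K}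
    (hg : FrobAt (q ^ k) P g⁻¹) (t : GK K → ℚ) (ht : (mt W g).trace = (t g : ℚ_[ℓ])) :
    (mt V g).trace = ((t g + ((q : ℚ) ^ k) ^ u * φ g : ℚ) : ℚ_[ℓ]) := by
  have h1 := cyc_sigma (ℓ := ℓ) hP hg hℓP
  rw [c_inv] at h1
  have h2 := hφ g
  have h3 : cyc K ℓ ℚ_[ℓ] g = ((q : ℚ_[ℓ]) ^ k)⁻¹ := by
    rw [← inv_inv (cyc K ℓ ℚ_[ℓ] g), h1]
    push_cast
    rfl
  have h4 : ((q : ℚ_[ℓ]) ^ k) ≠ 0 := by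
    intro h5
    rw [h5, _root_.inv_zero] at h3
    exact c_ne _ _ h3
  rw [h3, ht, _root_.inv_zpow] at h2
  have h5 : (((q : ℚ_[ℓ]) ^ k) ^ u) ≠ 0 := zpow_ne_zero _ h4
  rw [inv_mul_eq_iff_eq_mul₀ h5] at h2
  push_cast
  rw [← h2]
  ring

/-- **The local factor.** -/
theorem loc {n m : ℕ} (V : ∀ (ℓ : ℕ) [Fact ℓ.Prime], GK K →* GL (Fin n) ℚ_[ℓ])
    (hV : ∀ (ℓ : ℕ) [Fact ℓ.Prime], Continuous (V ℓ))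
    (W : ∀ (ℓ : ℕ) [Fact ℓ.Prime], GK K →* GL (Fin m) ℚ_[ℓ]) (u : ℤ)
    (φ : GK K → ℚ) (U : Subgroup (GK K)) (hUn : U.Normal) (hUo : IsOpen (U : Set (GK K)))
    (hU : ∀ x ∈ U, ∀ y, φ (x * y) = φ y)
    (hφ : ∀ (ℓ : ℕ) [Fact ℓ.Prime] (y : GK K),
      cyc K ℓ ℚ_[ℓ] y ^ u * ((mt (V ℓ) y).trace - (mt (W ℓ) y).trace) = (φ y : ℚ_[ℓ]))
    {P : Ideal (OO K)} (hP : P.IsMaximal) {q : ℕ} (hq : 2 ≤ q) {σ : GK K} (hσ : FrobAt q P σ)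
    (U₁ : Subgroup (GK K)) (hU₁n : U₁.Normal) (hU₁o : IsOpen (U₁ : Set (GK K))) (hle : U₁ ≤ U)
    (hWu : ∀ (ℓ : ℕ) [Fact ℓ.Prime], (ℓ : OO K) ∉ P → ∀ τ ∈ U₁, InInertia P τ →
      IsNilpotent (mt (W ℓ) τ - 1))
    (hss : ∀ (ℓ : ℕ) [Fact ℓ.Prime], (ℓ : OO K) ∉ P → SS (Set.range (en (mh (W ℓ)))))
    {r : ℝ} (hr : 0 < r) (hru : φ 1 ≠ 0 → (q : ℝ) ^ (2 * u) = r) (hu : φ 1 ≠ 0 → 0 ≤ u)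
    (t : GK K → ℚ) (ht : ∀ (ℓ : ℕ) [Fact ℓ.Prime], (ℓ : OO K) ∉ P → ∀ k : ℕ, 1 ≤ k → ∀ g : GK K,
      FrobAt (q ^ k) P g⁻¹ → (mt (W ℓ) g).trace = (t g : ℚ_[ℓ]))
    (hWLE : ∀ (ℓ : ℕ) [Fact ℓ.Prime], (ℓ : OO K) ∉ P → ∀ e : ℚ_[ℓ] →+* ℂ, WLE (W ℓ) P q r e)
    (hWGE : ∀ (ℓ : ℕ) [Fact ℓ.Prime], (ℓ : OO K) ∉ P → ∀ e : ℚ_[ℓ] →+* ℂ, WGE (W ℓ) P q r e)
    (hint : ∀ (ℓ : ℕ) [Fact ℓ.Prime], (ℓ : OO K) ∉ P →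
      ∃ f : ℤ[X], f.Monic ∧ aeval (mt (W ℓ) σ⁻¹) f = 0)
    (I : ∀ (ℓ : ℕ) [Fact ℓ.Prime], Submodule ℚ_[ℓ] (Fin n → ℚ_[ℓ]))
    (hI : ∀ (ℓ : ℕ) [Fact ℓ.Prime] (x : Fin n → ℚ_[ℓ]),
      x ∈ I ℓ ↔ ∀ τ, InInertia P τ → mt (V ℓ) τ *ᵥ x = x) :
    ∃ f : ℤ[X], ∀ (ℓ : ℕ) [Fact ℓ.Prime], (ℓ : OO K) ∉ P →
      ∀ (r : ℕ) (b : Basis (Fin r) ℚ_[ℓ] (I ℓ)) (A : Matrix (Fin r) (Fin r) ℚ_[ℓ]),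
        (∀ j, mt (V ℓ) σ⁻¹ *ᵥ (b j : Fin n → ℚ_[ℓ]) = ∑ i, A i j • (b i : Fin n → ℚ_[ℓ])) →
        A.charpolyRev = f.map (Int.castRingHom ℚ_[ℓ]) := by
  classical
  have hproj : ∀ (ℓ : ℕ) [Fact ℓ.Prime], ∃ P0 : Matrix (Fin n) (Fin n) ℚ_[ℓ],
      (∀ x, P0 *ᵥ x ∈ SI (V ℓ) P U₁) ∧ ∀ x ∈ SI (V ℓ) P U₁, P0 *ᵥ x = x := fun ℓ _ =>
    exists_proj _
  choose P0 hP0 hP0' using hproj
  have hemb : ∀ (ℓ : ℕ) [Fact ℓ.Prime], Nonempty (ℚ_[ℓ] →+* ℂ) := by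
    intro ℓ _
    obtain ⟨e⟩ := Pool.Agent.R401.Iso.exists_iso ℓ
    exact ⟨(e : PadicAlgCl ℓ →+* ℂ).comp (algebraMap ℚ_[ℓ] (PadicAlgCl ℓ))⟩
  -- the traces on the invariants of the small inertia group
  have step : ∀ (ℓ : ℕ) [Fact ℓ.Prime] (ℓ' : ℕ) [Fact ℓ'.Prime], (ℓ : OO K) ∉ P →
      (ℓ' : OO K) ∉ P → ∀ (e : ℚ_[ℓ] →+* ℂ) (e' : ℚ_[ℓ'] →+* ℂ) (k : ℕ), 1 ≤ k → ∀ g : GK K,
      FrobAt (q ^ k) P g⁻¹ → e (mt (V ℓ) g * P0 ℓ).trace = e' (mt (V ℓ') g * P0 ℓ').trace := by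
    intro ℓ _ ℓ' _ hℓP hℓ'P e e' k hk g hg
    have htr : ∀ j : ℕ, 1 ≤ j → e (mt (V ℓ) g ^ j).trace = e' (mt (V ℓ') g ^ j).trace := by
      intro j hj
      have hgj : FrobAt (q ^ (k * j)) P (g ^ j)⁻¹ := by
        rw [pow_mul, ← inv_pow]
        exact frob_pow hg j
      have hkj : 1 ≤ k * j := Nat.mul_pos hk hj
      rw [← mt_pow, ← mt_pow, trace_V (V ℓ) (W ℓ) u φ (hφ ℓ) hP hℓP hgj t (ht ℓ hℓP _ hkj _ hgj),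
        trace_V (V ℓ') (W ℓ') u φ (hφ ℓ') hP hℓ'P hgj t (ht ℓ' hℓ'P _ hkj _ hgj), map_ratCast,
        map_ratCast]
    rw [trace_S (V ℓ) (hV ℓ) (W ℓ) u φ U hUn hUo hU (hφ ℓ) hP hq hσ hℓP U₁ hU₁n hU₁o hle
      (hWu ℓ hℓP) (hss ℓ hℓP) hr hru e (hWLE ℓ hℓP e) (hWGE ℓ hℓP e) (hP0 ℓ) (hP0' ℓ) hk hg,
      trace_S (V ℓ') (hV ℓ') (W ℓ') u φ U hUn hUo hU (hφ ℓ') hP hq hσ hℓ'P U₁ hU₁n hU₁o hle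
      (hWu ℓ' hℓ'P) (hss ℓ' hℓ'P) hr hru e' (hWLE ℓ' hℓ'P e') (hWGE ℓ' hℓ'P e') (hP0 ℓ') (hP0' ℓ')
      hk hg, charpoly_map_eq e e' _ _ htr, charpoly_smul_map_eq e e' _ _ htr]
  -- the coefficients
  have hcoeff : ∀ (ℓ : ℕ) [Fact ℓ.Prime] (ℓ' : ℕ) [Fact ℓ'.Prime], (ℓ : OO K) ∉ P →
      (ℓ' : OO K) ∉ P → ∀ (e : ℚ_[ℓ] →+* ℂ) (e' : ℚ_[ℓ'] →+* ℂ)
      (s : ℕ) (b : Basis (Fin s) ℚ_[ℓ] (I ℓ)) (A : Matrix (Fin s) (Fin s) ℚ_[ℓ]),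
        (∀ j, mt (V ℓ) σ⁻¹ *ᵥ (b j : Fin n → ℚ_[ℓ]) = ∑ i, A i j • (b i : Fin n → ℚ_[ℓ])) →
      ∀ (s' : ℕ) (b' : Basis (Fin s') ℚ_[ℓ'] (I ℓ')) (A' : Matrix (Fin s') (Fin s') ℚ_[ℓ']),
        (∀ j, mt (V ℓ') σ⁻¹ *ᵥ (b' j : Fin n → ℚ_[ℓ']) =
          ∑ i, A' i j • (b' i : Fin n → ℚ_[ℓ'])) →
        ∀ i, e (A.charpolyRev.coeff i) = e' (A'.charpolyRev.coeff i) := by
    intro ℓ _ ℓ' _ hℓP hℓ'P e e' s b A hA s' b' A' hA'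
    apply rev_coeff_eq
    intro k hk
    rw [trace_pow (avg_mem (V ℓ) U₁ hU₁o (hP0 ℓ) (hI ℓ)) (avg_fix (V ℓ) U₁ hU₁o (hP0' ℓ) (hI ℓ))
        b hA,
      trace_pow (avg_mem (V ℓ') U₁ hU₁o (hP0 ℓ') (hI ℓ')) (avg_fix (V ℓ') U₁ hU₁o (hP0' ℓ') (hI ℓ'))
        b' hA', trace_avg (V ℓ) U₁ hU₁o e, trace_avg (V ℓ') U₁ hU₁o e']
    congr 1
    refine finsum_congr fun x => ?_
    refine step ℓ ℓ' hℓP hℓ'P e e' k hk _ ?_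
    rw [_root_.mul_inv_rev, ← inv_pow, inv_inv]
    exact frob_mul_inertia (frob_pow hσ k) ((IG P).inv_mem x.out.2)
  -- integrality
  have hZ : ∀ (ℓ : ℕ) [Fact ℓ.Prime], (ℓ : OO K) ∉ P → 
      ∀ (s : ℕ) (b : Basis (Fin s) ℚ_[ℓ] (I ℓ)) (A : Matrix (Fin s) (Fin s) ℚ_[ℓ]),
        (∀ j, mt (V ℓ) σ⁻¹ *ᵥ (b j : Fin n → ℚ_[ℓ]) = ∑ i, A i j • (b i : Fin n → ℚ_[ℓ])) →
        ∀ i, ∃ z : ℤ, A.charpolyRev.coeff i = z := by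
    intro ℓ _ hℓP s b A hA i
    apply rat_of_const
    · obtain ⟨f, hf, hf0⟩ := exists_monic (V ℓ) (W ℓ) u φ U hUn hUo hU (hφ ℓ) hP hσ hℓP hu
        (hint ℓ hℓP)
      have h2 := coeff_charpoly_integral A f hf (aeval_eq_zero b hA f hf0)
      rw [← Matrix.reverse_charpoly, coeff_reverse]
      exact h2 _
    · intro e e'
      exact hcoeff ℓ ℓ hℓP hℓP e e' s b A hA s b A hA i
  obtain ⟨ℓ₀, hℓ₀, hℓ₀P⟩ := Pool.Agent.R401.Tr6.exists_prime_not_mem hP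
  have : Fact ℓ₀.Prime := ⟨hℓ₀⟩
  obtain ⟨m₀, b₀, A₀, hA₀⟩ := Pool.Agent.R401.Tr6.exists_basis (V ℓ₀) hq hσ (hI ℓ₀)
  choose c hc using hZ ℓ₀ hℓ₀P m₀ b₀ A₀ hA₀
  obtain ⟨e₀⟩ := hemb ℓ₀
  have hzero : ∀ k, m₀ < k → c k = 0 := by
    intro k hk
    have h1 := hc k
    rw [coeff_eq_zero_of_natDegree_lt (lt_of_le_of_lt (natDegree_charpolyRev A₀) hk)] at h1
    exact_mod_cast h1.symm
  refine ⟨∑ k ∈ Finset.range (m₀ + 1), C (c k) * X ^ k, ?_⟩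
  intro ℓ _ hℓP s b A hA
  refine Polynomial.ext fun k => ?_
  obtain ⟨e⟩ := hemb ℓ
  obtain ⟨z, hz⟩ := hZ ℓ hℓP s b A hA k
  have h1 := hcoeff ℓ ℓ₀ hℓP hℓ₀P e e₀ s b A hA m₀ b₀ A₀ hA₀ k
  rw [hz, hc, map_intCast, map_intCast] at h1
  have h2 : z = c k := by exact_mod_cast h1
  rw [hz, h2, coeff_map, finsetSum_coeff]
  simp only [coeff_C_mul, coeff_X_pow, mul_ite, mul_one, mul_zero]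
  rw [Finset.sum_ite_eq]
  split_ifs with hk
  · rfl
  · rw [Finset.mem_range] at hk
    rw [hzero k (by omega), Int.cast_zero, map_zero]

end Pool.Agent.NH57.WM
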