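import Pool.Agent.NH57.WM.Cyc
import Pool.Agent.NH57.WM.Log

/-!
# Transfer of local factors at places with monodromy: the monodromy operator
-/

set_option autoImplicit false

namespace Pool.Agent.NH57.WM

open NumberField Filter Topology IsDedekindDomain Pool.Agent.W401.Cheb Pool.Agent.R401.Sup
open Pool.Agent.W569.FM Pool.Agent.R401.Img Pool.Agent.R401.Sup3 Pool.Agent.R401.Sup4
open Pool.Agent.R401.Tr3 Pool.Agent.R401.Tr4 Pool.Agent.R401.Tr5 Module Polynomial Matrix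
open Pool.Agent.R401.Tr8 Pool.Agent.R401.Tr9

section unip

variable {k : Type} [Field k] [CharZero k] {n : ℕ}

theorem unip_factor {A : Matrix (Fin n) (Fin n) k} (hA : IsNilpotent (A - 1)) {N : ℕ} (hN : 0 < N) :
    ∃ E' : Matrix (Fin n) (Fin n) k, A - 1 = E' * (A ^ N - 1) ∧ A - 1 = (A ^ N - 1) * E' := by
  have hcomm : ∀ i : ℕ, Commute (A - 1) (A ^ i) := fun i =>
    ((Commute.refl A).sub_left (Commute.one_left A)).pow_right i
  set E : Matrix (Fin n) (Fin n) k := ∑ i ∈ Finset.range N, A ^ i with hE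
  have hE1 : (A - 1) * E = A ^ N - 1 := mul_geom_sum A N
  have hE2 : E * (A - 1) = A ^ N - 1 := geom_sum_mul A N
  have hc : Commute (A - 1) E := by rw [Commute, SemiconjBy, hE1, hE2]
  -- the unit
  have hG : ∃ G : Matrix (Fin n) (Fin n) k, Commute (A - 1) G ∧ E = (N : k) • 1 + (A - 1) * G := by
    refine ⟨∑ i ∈ Finset.range N, ∑ j ∈ Finset.range i, A ^ j, ?_, ?_⟩
    · exact Commute.sum_right _ _ _ fun i _ => Commute.sum_right _ _ _ fun j _ => hcomm j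
    · rw [Finset.mul_sum]
      have h1 : ∀ i ∈ Finset.range N, (A - 1) * ∑ j ∈ Finset.range i, A ^ j = A ^ i - 1 :=
        fun i _ => mul_geom_sum A i
      rw [Finset.sum_congr rfl h1, Finset.sum_sub_distrib, Finset.sum_const, Finset.card_range,
        Nat.cast_smul_eq_nsmul, hE]
      abel
  obtain ⟨G, hG1, hG2⟩ := hG
  have hu : IsUnit E := by
    rw [hG2]
    have h1 : IsNilpotent ((A - 1) * G) := hG1.isNilpotent_mul_right hA
    have h2 : IsUnit ((N : k) • (1 : Matrix (Fin n) (Fin n) k)) := by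
      have h3 : (N : k) ≠ 0 := Nat.cast_ne_zero.2 hN.ne'
      rw [← Algebra.algebraMap_eq_smul_one]
      exact (IsUnit.mk0 _ h3).map (algebraMap k _)
    refine h1.isUnit_add_left_of_commute h2 ?_
    exact (Commute.one_right _).smul_right _
  obtain ⟨E₀, hE₀⟩ := hu
  refine ⟨((E₀⁻¹ : (Matrix (Fin n) (Fin n) k)ˣ) : Matrix (Fin n) (Fin n) k), ?_, ?_⟩
  · rw [← hE2, ← hE₀, ← mul_assoc, Units.inv_mul, one_mul]
  · rw [← hE1, ← hE₀, mul_assoc, Units.mul_inv, mul_one]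

theorem unip_vec {A : Matrix (Fin n) (Fin n) k} (hA : IsNilpotent (A - 1)) {N : ℕ} (hN : 0 < N)
    {x : Fin n → k} (hx : A ^ N *ᵥ x = x) : A *ᵥ x = x := by
  obtain ⟨E, hE, -⟩ := unip_factor hA hN
  have h1 : (A - 1) *ᵥ x = 0 := by
    rw [hE, ← Matrix.mulVec_mulVec, Matrix.sub_mulVec, hx, Matrix.one_mulVec, sub_self,
      Matrix.mulVec_zero]
  rw [Matrix.sub_mulVec, Matrix.one_mulVec] at h1
  exact sub_eq_zero.1 h1

theorem unip_row {A : Matrix (Fin n) (Fin n) k} (hA : IsNilpotent (A - 1)) {N : ℕ} (hN : 0 < N)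
    {x : Fin n → k} (hx : x ᵥ* A ^ N = x) : x ᵥ* A = x := by
  obtain ⟨E, -, hE⟩ := unip_factor hA hN
  have h1 : x ᵥ* (A - 1) = 0 := by
    rw [hE, ← Matrix.vecMul_vecMul, Matrix.vecMul_sub, hx, Matrix.vecMul_one, sub_self,
      Matrix.zero_vecMul]
  rw [Matrix.vecMul_sub, Matrix.vecMul_one] at h1
  exact sub_eq_zero.1 h1

omit [CharZero k] in
/-- fixed vectors and fixed rows -/
theorem row_of_vec {A B : Matrix (Fin n) (Fin n) k} (h1 : ∀ x, A *ᵥ x = x → B *ᵥ x = x)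
    (h2 : ∀ y, y ᵥ* A = y → y ᵥ* B = y)
    (hd : finrank k (LinearMap.ker (B - 1).mulVecLin) ≤ finrank k (LinearMap.ker (A - 1).mulVecLin)) :
    (∀ x, B *ᵥ x = x → A *ᵥ x = x) ∧ ∀ y, y ᵥ* B = y → y ᵥ* A = y := by
  have hmem : ∀ (M : Matrix (Fin n) (Fin n) k) (x : Fin n → k),
      x ∈ LinearMap.ker (M - 1).mulVecLin ↔ M *ᵥ x = x := by
    intro M x
    rw [LinearMap.mem_ker, Matrix.mulVecLin_apply, Matrix.sub_mulVec, Matrix.one_mulVec, sub_eq_zero]
  have hmem' : ∀ (M : Matrix (Fin n) (Fin n) k) (x : Fin n → k),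
      x ∈ LinearMap.ker (M - 1)ᵀ.mulVecLin ↔ x ᵥ* M = x := by
    intro M x
    rw [LinearMap.mem_ker, Matrix.mulVecLin_apply, Matrix.mulVec_transpose, Matrix.vecMul_sub,
      Matrix.vecMul_one, sub_eq_zero]
  have hle : LinearMap.ker (A - 1).mulVecLin ≤ LinearMap.ker (B - 1).mulVecLin := by
    intro x hx
    rw [hmem] at hx ⊢
    exact h1 x hx
  have hle' : LinearMap.ker (A - 1)ᵀ.mulVecLin ≤ LinearMap.ker (B - 1)ᵀ.mulVecLin := by
    intro x hx
    rw [hmem'] at hx ⊢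
    exact h2 x hx
  have hdim : ∀ M : Matrix (Fin n) (Fin n) k, M.rank + finrank k (LinearMap.ker M.mulVecLin) = n := by
    intro M
    have := LinearMap.finrank_range_add_finrank_ker M.mulVecLin
    rwa [Module.finrank_fin_fun] at this
  have e1 := Submodule.eq_of_le_of_finrank_le hle hd
  have e2 : LinearMap.ker (A - 1)ᵀ.mulVecLin = LinearMap.ker (B - 1)ᵀ.mulVecLin := by
    refine Submodule.eq_of_le_of_finrank_le hle' ?_
    have h3 := hdim (A - 1)
    have h4 := hdim (B - 1)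
    have h5 := hdim (A - 1)ᵀ
    have h6 := hdim (B - 1)ᵀ
    rw [Matrix.rank_transpose] at h5 h6
    omega
  refine ⟨fun x hx => ?_, fun y hy => ?_⟩
  · rw [← hmem] at hx ⊢
    rwa [e1]
  · rw [← hmem'] at hy ⊢
    rwa [e2]

end unip

variable {K : Type} [Field K] [NumberField K]

theorem frob_pow {P : Ideal (OO K)} {q : ℕ} {σ : GK K} (hσ : FrobAt q P σ) (j : ℕ) :
    FrobAt (q ^ j) P (σ ^ j) := by
  induction j with
  | zero =>
    intro x
    rw [pow_zero, pow_zero, pow_one, one_smul, sub_self]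
    exact P.zero_mem
  | succ j ih =>
    intro x
    have h1 : (σ ^ (j + 1)) • x - x ^ (q ^ (j + 1)) =
        ((σ ^ j) • (σ • x) - (σ • x) ^ (q ^ j)) + ((σ • x) ^ (q ^ j) - (x ^ q) ^ (q ^ j)) := by
      rw [pow_succ σ, mul_smul, pow_succ' q, pow_mul]
      ring
    rw [h1]
    refine P.add_mem (ih _) ?_
    exact P.mem_of_dvd (sub_dvd_pow_sub_pow _ _ _) (hσ x)

theorem frob_mul_inertia {P : Ideal (OO K)} {q : ℕ} {σ τ : GK K} (hσ : FrobAt q P σ)
    (hτ : InInertia P τ) : FrobAt q P (τ * σ) := by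
  intro x
  have h2 : (τ * σ) • x - x ^ q = (τ • (σ • x) - σ • x) + (σ • x - x ^ q) := by
    rw [mul_smul]
    abel
  rw [h2]
  exact P.add_mem (hτ _) (hσ x)

theorem inertia_conj {P : Ideal (OO K)} {q : ℕ} (hq : 1 ≤ q) {σ τ : GK K} (hσ : FrobAt q P σ)
    (hτ : InInertia P τ) : InInertia P (σ * τ * σ⁻¹) := by
  intro y
  have h2 : (σ * τ * σ⁻¹) • y - y = σ • (τ • (σ⁻¹ • y) - σ⁻¹ • y) := by
    rw [smul_sub, smul_inv_smul, mul_smul, mul_smul]
  rw [h2]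
  have h3 := hτ (σ⁻¹ • y)
  set z := τ • (σ⁻¹ • y) - σ⁻¹ • y
  have h4 : σ • z = (σ • z - z ^ q) + z ^ q := by abel
  rw [h4]
  exact P.add_mem (hσ z) (P.pow_mem_of_mem h3 q (by omega))

/-- **The monodromy operator.** -/
theorem exists_mono {ℓ : ℕ} [Fact ℓ.Prime] {n : ℕ} (V : GK K →* GL (Fin n) ℚ_[ℓ])
    (hV : Continuous V) {P : Ideal (OO K)} (hP : P.IsMaximal) (hℓP : (ℓ : OO K) ∉ P)
    (U : Subgroup (GK K)) (hunip : ∀ τ ∈ U, InInertia P τ → IsNilpotent (mt V τ - 1)) :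
    ∃ N : Matrix (Fin n) (Fin n) ℚ_[ℓ],
      (∀ x, N *ᵥ x = 0 ↔ ∀ τ ∈ U, InInertia P τ → mt V τ *ᵥ x = x) ∧
      (∀ y, y ᵥ* N = 0 ↔ ∀ τ ∈ U, InInertia P τ → y ᵥ* mt V τ = y) ∧
      ∀ (g : GK K) (Q : ℕ), 1 ≤ Q → FrobAt Q P g⁻¹ →
        N * mt V g = (Q : ℚ_[ℓ]) • (mt V g * N) := by
  classical
  have hmc : Continuous (mh V) := continuous_mt V hV
  obtain ⟨H, hHn, hHo, hH⟩ := exists_small (mh V) hmc
  obtain ⟨l, hl, hlP⟩ := Pool.Agent.R703.FM.exists_prime_mem P hP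
  have hne : ℓ ≠ l := by
    rintro rfl
    exact hℓP hlP
  -- the dimension of the kernel
  let d : GK K → ℕ := fun τ => finrank ℚ_[ℓ] (LinearMap.ker (mt V τ - 1).mulVecLin)
  have hex : ∃ D : ℕ, ∃ τ : GK K, (τ ∈ U ∧ τ ∈ H ∧ InInertia P τ) ∧ d τ = D := by
    refine ⟨_, 1, ⟨U.one_mem, H.one_mem, ?_⟩, rfl⟩
    intro x
    rw [one_smul, sub_self]
    exact P.zero_mem
  obtain ⟨τ₀, ⟨h0U, h0H, h0I⟩, h0d⟩ := Nat.find_spec hex
  have hmin : ∀ τ, τ ∈ U → τ ∈ H → InInertia P τ → d τ₀ ≤ d τ := by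
    intro τ h1 h2 h3
    rw [h0d]
    exact Nat.find_min' hex ⟨τ, ⟨h1, h2, h3⟩, rfl⟩
  have hself : ∀ g : GK K, g ∈ stab (mh V) (mt V g) := fun g => ⟨fun x hx => hx, fun y hy => hy⟩
  have hstabH : ∀ τ ∈ U, τ ∈ H → InInertia P τ → τ ∈ stab (mh V) (mt V τ₀) := by
    intro τ h1 h2 h3
    rcases total_closed (mh V) hmc H hHo hH hl hne hP hlP h0H h2 h0I h3
      (stab (mh V) (mt V τ₀)) (stab (mh V) (mt V τ)) (stab_closed _ hmc _) (stab_closed _ hmc _)
      (ker_le_stab _ _) (ker_le_stab _ _) (hself τ₀) (hself τ) with h4 | h4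
    · exact h4
    · exact row_of_vec h4.1 h4.2 (hmin τ h1 h2 h3)
  have hfin : Finite (GK K ⧸ H) := Subgroup.quotient_finite_of_isOpen _ hHo
  have hfi : H.FiniteIndex := Subgroup.finiteIndex_of_finite_quotient
  have hm : 0 < H.index := Nat.pos_of_ne_zero hfi.index_ne_zero
  have hstab : ∀ τ ∈ U, InInertia P τ → τ ∈ stab (mh V) (mt V τ₀) := by
    intro τ h1 h2
    have h3 := hstabH (τ ^ H.index) (U.pow_mem h1 _) (Subgroup.pow_index_mem H τ)
      ((IG P).pow_mem (show τ ∈ IG P from h2) _)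
    refine ⟨fun x hx => ?_, fun y hy => ?_⟩
    · have h4 := h3.1 x hx
      rw [mh_apply, mt_pow] at h4
      exact unip_vec (hunip τ h1 h2) hm h4
    · have h4 := h3.2 y hy
      rw [mh_apply, mt_pow] at h4
      exact unip_row (hunip τ h1 h2) hm h4
  obtain ⟨N, u, u', hN1, hN2, hu1, hu2, hN3⟩ := exists_log ℚ_[ℓ] (hunip τ₀ h0U h0I)
  refine ⟨N, ?_, ?_, ?_⟩
  · intro x
    constructor
    · intro hx τ h1 h2
      have h3 : mt V τ₀ *ᵥ x = x := by
        have h4 : (mt V τ₀ - 1) *ᵥ x = 0 := by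
          have h5 : mt V τ₀ - 1 = u' * N := by rw [hN2, ← mul_assoc, hu2, one_mul]
          rw [h5, ← Matrix.mulVec_mulVec, hx, Matrix.mulVec_zero]
        rw [Matrix.sub_mulVec, Matrix.one_mulVec] at h4
        exact sub_eq_zero.1 h4
      exact (hstab τ h1 h2).1 x h3
    · intro hx
      rw [hN2, ← Matrix.mulVec_mulVec, Matrix.sub_mulVec, hx τ₀ h0U h0I, Matrix.one_mulVec, sub_self,
        Matrix.mulVec_zero]
  · intro y
    constructor
    · intro hy τ h1 h2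
      have h3 : y ᵥ* mt V τ₀ = y := by
        have h4 : y ᵥ* (mt V τ₀ - 1) = 0 := by
          have h5 : mt V τ₀ - 1 = N * u' := by rw [hN1, mul_assoc, hu1, mul_one]
          rw [h5, ← Matrix.vecMul_vecMul, hy, Matrix.zero_vecMul]
        rw [Matrix.vecMul_sub, Matrix.vecMul_one] at h4
        exact sub_eq_zero.1 h4
      exact (hstab τ h1 h2).2 y h3
    · intro hy
      rw [hN1, ← Matrix.vecMul_vecMul, Matrix.vecMul_sub, hy τ₀ h0U h0I, Matrix.vecMul_one, sub_self,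
        Matrix.zero_vecMul]
  · intro g Q hQ hg
    have hrel := tame_rel' (mh V) hmc H hHo hH hl hne hQ hP hlP h0H h0I hg
    rw [inv_inv, mh_apply, mh_apply, mt_mul, mt_mul] at hrel
    have h1 : mt V g⁻¹ * mt V g = 1 := by
      rw [← mt_mul, inv_mul_cancel, Pool.Agent.R401.Tr9.mt_one]
    have h2 : mt V g * mt V g⁻¹ = 1 := by
      rw [← mt_mul, mul_inv_cancel, Pool.Agent.R401.Tr9.mt_one]
    have h3 := hN3 _ _ Q h1 h2 hrel
    calc N * mt V g = (mt V g * mt V g⁻¹) * N * mt V g := by rw [h2, one_mul]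
      _ = mt V g * (mt V g⁻¹ * N * mt V g) := by simp only [mul_assoc]
      _ = (Q : ℚ_[ℓ]) • (mt V g * N) := by rw [h3, mul_smul_comm]

end Pool.Agent.NH57.WM
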