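import Pool.Agent.NH57.WM.Clif

/-!
# Transfer of local factors at places with monodromy: transfer for matrix representations
-/

set_option autoImplicit false

namespace Pool.Agent.NH57.WM

open Polynomial Module

section rep

variable {k : Type} [Field k] [CharZero k] {U : Type} [Group U] {n m : ℕ}
  (V : U →* Matrix (Fin n) (Fin n) k) (W : U →* Matrix (Fin m) (Fin m) k) (l : U →* k) (c : k)
  (htr : ∀ g, (V g).trace = (W g).trace + c * l g)

/-- as endomorphisms -/
noncomputable def en {n : ℕ} (V : U →* Matrix (Fin n) (Fin n) k) : U →* Module.End k (Fin n → k) :=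
  ((Matrix.toLinAlgEquiv' : Matrix (Fin n) (Fin n) k ≃ₐ[k] _) : Matrix (Fin n) (Fin n) k →*
    Module.End k (Fin n → k)).comp V

omit [CharZero k] in
theorem en_apply {n : ℕ} (V : U →* Matrix (Fin n) (Fin n) k) (g : U) (x : Fin n → k) :
    en V g x = (V g).mulVec x := rfl

omit [CharZero k] in
theorem li_en {n : ℕ} (V : U →* Matrix (Fin n) (Fin n) k) (a : MonoidAlgebra k U) :
    li (en V) a = Matrix.toLinAlgEquiv' (li V a) := by
  rw [MonoidAlgebra.lift_apply, MonoidAlgebra.lift_apply, map_finsuppSum]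
  refine Finsupp.sum_congr fun g _ => ?_
  rw [map_smul]
  rfl

omit [CharZero k] in
theorem li_en_apply {n : ℕ} (V : U →* Matrix (Fin n) (Fin n) k) (a : MonoidAlgebra k U)
    (x : Fin n → k) : li (en V) a x = (li V a).mulVec x := by
  rw [li_en]
  rfl

omit [CharZero k] in
theorem li_en_eq_zero {n : ℕ} (V : U →* Matrix (Fin n) (Fin n) k) (a : MonoidAlgebra k U) :
    li (en V) a = 0 ↔ li V a = 0 := by
  rw [li_en]
  exact map_eq_zero_iff _ (Matrix.toLinAlgEquiv').injective

omit [CharZero k] in
include htr in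
theorem trace_li (a : MonoidAlgebra k U) :
    (li V a).trace = (li W a).trace + c * li l a := by
  rw [MonoidAlgebra.lift_apply, MonoidAlgebra.lift_apply, MonoidAlgebra.lift_apply, Finsupp.sum,
    Finsupp.sum, Finsupp.sum, Matrix.trace_sum, Matrix.trace_sum, Finset.mul_sum,
    ← Finset.sum_add_distrib]
  refine Finset.sum_congr rfl fun g _ => ?_
  rw [Matrix.trace_smul, Matrix.trace_smul, htr, smul_eq_mul, smul_eq_mul, smul_eq_mul]
  ring

omit [CharZero k] in
theorem trace_end {n : ℕ} (A : Matrix (Fin n) (Fin n) k) :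
    LinearMap.trace k (Fin n → k) (Matrix.toLinAlgEquiv' A) = A.trace :=
  Matrix.trace_toLin'_eq A

/-- the sum with the character -/
noncomputable def mu : U →* Module.End k ((Fin m → k) × k) where
  toFun g := (en W g).prodMap (l g • LinearMap.id)
  map_one' := by
    rw [map_one, map_one, one_smul]
    rfl
  map_mul' a b := by
    rw [map_mul, map_mul]
    refine LinearMap.ext fun x => Prod.ext rfl ?_
    change (l a * l b) • x.2 = l a • l b • x.2
    rw [mul_smul]

omit [CharZero k] in
theorem li_mu (a : MonoidAlgebra k U) (x : (Fin m → k) × k) :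
    li (mu W l) a x = (li (en W) a x.1, li l a • x.2) := by
  rw [MonoidAlgebra.lift_apply, MonoidAlgebra.lift_apply, MonoidAlgebra.lift_apply, Finsupp.sum,
    Finsupp.sum, Finsupp.sum, LinearMap.sum_apply, LinearMap.sum_apply, Finset.sum_smul]
  refine Prod.ext ?_ ?_
  · rw [Prod.fst_sum]
    rfl
  · rw [Prod.snd_sum]
    refine Finset.sum_congr rfl fun g _ => ?_
    change a.coeff g • l g • x.2 = (a.coeff g • l g) • x.2
    rw [smul_smul]
    rfl

omit [CharZero k] in
theorem ss_mu (h : SS (Set.range (en W))) : SS (Set.range (mu W l)) := by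
  classical
  intro S hS
  have hS' : ∀ g, ∀ x ∈ S, mu W l g x ∈ S := fun g => hS _ ⟨g, rfl⟩
  let SW : Submodule k (Fin m → k) := S.comap (LinearMap.inl k (Fin m → k) k)
  obtain ⟨T, hT, hST⟩ := h SW (by
    rintro _ ⟨g, rfl⟩ x hx
    have h1 := hS' g _ hx
    change (en W g x, l g • (0 : k)) ∈ S at h1
    rw [smul_zero] at h1
    exact h1)
  have hTd := Submodule.disjoint_def.1 hST.disjoint
  have hTc : ∀ w : Fin m → k, ∃ a ∈ SW, ∃ b ∈ T, a + b = w := by
    intro w
    have h2 : w ∈ SW ⊔ T := by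
      rw [hST.sup_eq_top]
      exact Submodule.mem_top
    exact Submodule.mem_sup.1 h2
  by_cases hs : ∃ x ∈ S, x.2 ≠ 0
  · obtain ⟨x, hx, hx2⟩ := hs
    refine ⟨T.prod ⊥, ?_, ?_⟩
    · rintro _ ⟨g, rfl⟩ y hy
      refine ⟨hT _ ⟨g, rfl⟩ _ hy.1, ?_⟩
      have h3 : y.2 = 0 := hy.2
      change l g • y.2 = 0
      rw [h3, smul_zero]
    · rw [isCompl_iff]
      constructor
      · rw [Submodule.disjoint_def]
        rintro ⟨a, b⟩ hab ⟨h1, h2⟩
        have h3 : b = 0 := h2
        subst h3
        have h4 : a = 0 := hTd a hab h1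
        rw [h4]
        rfl
      · rw [codisjoint_iff, eq_top_iff]
        rintro ⟨a, b⟩ _
        obtain ⟨s, hs, t, ht, hst⟩ := hTc (a - (b / x.2) • x.1)
        refine Submodule.mem_sup.2 ⟨(b / x.2) • x + (s, 0), S.add_mem (S.smul_mem _ hx) hs,
          (t, 0), ⟨ht, rfl⟩, ?_⟩
        refine Prod.ext ?_ ?_
        · change (b / x.2) • x.1 + s + t = a
          rw [add_assoc, hst]
          abel
        · change (b / x.2) • x.2 + 0 + 0 = b
          rw [add_zero, add_zero, smul_eq_mul, div_mul_cancel₀ _ hx2]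
  · push Not at hs
    refine ⟨T.prod ⊤, ?_, ?_⟩
    · rintro _ ⟨g, rfl⟩ y hy
      exact ⟨hT _ ⟨g, rfl⟩ _ hy.1, trivial⟩
    · rw [isCompl_iff]
      constructor
      · rw [Submodule.disjoint_def]
        rintro ⟨a, b⟩ hab ⟨h1, _⟩
        have h3 : b = 0 := hs _ hab
        subst h3
        have h4 : a = 0 := hTd a hab h1
        rw [h4]
        rfl
      · rw [codisjoint_iff, eq_top_iff]
        rintro ⟨a, b⟩ _
        obtain ⟨s, hs, t, ht, hst⟩ := hTc a
        refine Submodule.mem_sup.2 ⟨(s, 0), hs, (t, b), ⟨ht, trivial⟩, ?_⟩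
        refine Prod.ext hst ?_
        change 0 + b = b
        rw [zero_add]

variable (hss : SS (Set.range (en W)))

omit [CharZero k] in
include htr in
theorem hZ_mu (a : MonoidAlgebra k U) (ha : li (mu W l) a = 0) :
    LinearMap.trace k _ (li (en V) a) = 0 := by
  have h1 : ∀ x : Fin m → k, li (en W) a x = 0 := by
    intro x
    have h2 := congrArg Prod.fst (LinearMap.congr_fun ha (x, 0))
    rw [li_mu] at h2
    exact h2
  have h2 : li l a = 0 := by
    have h3 := congrArg Prod.snd (LinearMap.congr_fun ha (0, 1))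
    rw [li_mu] at h3
    change li l a • (1 : k) = 0 at h3
    rwa [smul_eq_mul, mul_one] at h3
  have h3 : li W a = 0 := (li_en_eq_zero W a).1 (LinearMap.ext h1)
  rw [li_en, trace_end, trace_li V W l c htr, h3, h2, Matrix.trace_zero, mul_zero, add_zero]

omit [CharZero k] in
include htr in
theorem hZ_zero (hc : c = 0) (a : MonoidAlgebra k U) (ha : li (en W) a = 0) :
    LinearMap.trace k _ (li (en V) a) = 0 := by
  rw [li_en, trace_end, trace_li V W l c htr, (li_en_eq_zero W a).1 ha, hc, Matrix.trace_zero,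
    zero_mul, add_zero]

include htr in
/-- nilpotent elements -/
theorem nilp_rep (a : MonoidAlgebra k U) (ha : li W a = 0) (ha' : c = 0 ∨ li l a = 0) :
    IsNilpotent (li V a) := by
  have h1 : IsNilpotent (li (en V) a) := by
    rcases ha' with hc | hl
    · exact nilp (en V) (en W) (hZ_zero V W l c htr hc) ((li_en_eq_zero W a).2 ha)
    · refine nilp (en V) (mu W l) (hZ_mu V W l c htr) ?_
      refine LinearMap.ext fun x => ?_
      rw [li_mu, (li_en_eq_zero W a).2 ha, hl, zero_smul]
      rfl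
  obtain ⟨N, hN⟩ := h1
  refine ⟨N, ?_⟩
  apply (Matrix.toLinAlgEquiv' : Matrix (Fin n) (Fin n) k ≃ₐ[k] _).injective
  rw [map_pow, ← li_en, hN, map_zero]

include htr hss in
/-- transfer of relations of vectors -/
theorem transfer_vec {x : Fin n → k} (hx : x ≠ 0) :
    (∃ y : Fin m → k, y ≠ 0 ∧ ∀ a : MonoidAlgebra k U, (li V a).mulVec x = 0 →
      (li W a).mulVec y = 0) ∨
    (c ≠ 0 ∧ ∀ a : MonoidAlgebra k U, (li V a).mulVec x = 0 → li l a = 0) := by
  by_cases hc : c = 0
  · obtain ⟨y, hy, h⟩ := transfer (en V) (en W) (hZ_zero V W l c htr hc) hss hx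
    refine Or.inl ⟨y, hy, fun a ha => ?_⟩
    rw [← li_en_apply]
    exact h a (by rw [li_en_apply, ha])
  · obtain ⟨⟨y, s⟩, hy, h⟩ := transfer (en V) (mu W l) (hZ_mu V W l c htr) (ss_mu W l hss) hx
    by_cases hy0 : y = 0
    · right
      have hs : s ≠ 0 := by
        rintro rfl
        exact hy (by rw [hy0]; rfl)
      refine ⟨hc, fun a ha => ?_⟩
      have h1 := h a (by rw [li_en_apply, ha])
      rw [li_mu] at h1
      have h2 := congrArg Prod.snd h1
      exact (smul_eq_zero.1 h2).resolve_right hs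
    · refine Or.inl ⟨y, hy0, fun a ha => ?_⟩
      have h1 := h a (by rw [li_en_apply, ha])
      rw [li_mu] at h1
      rw [← li_en_apply]
      exact congrArg Prod.fst h1

omit [CharZero k] in
/-- linear forms as rows -/
theorem form_comp {n : ℕ} (y : Fin n → k) (A : Matrix (Fin n) (Fin n) k) :
    (dotProductEquiv k (Fin n) y) ∘ₗ (Matrix.toLinAlgEquiv' A) =
      dotProductEquiv k (Fin n) (Matrix.vecMul y A) := by
  refine LinearMap.ext fun x => ?_
  change dotProduct y (A.mulVec x) = dotProduct (Matrix.vecMul y A) x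
  exact Matrix.dotProduct_mulVec y A x

omit [CharZero k] in
theorem form_comp_zero {n : ℕ} (V : U →* Matrix (Fin n) (Fin n) k) (y : Fin n → k)
    (a : MonoidAlgebra k U) :
    (dotProductEquiv k (Fin n) y) ∘ₗ (li (en V) a) = 0 ↔ Matrix.vecMul y (li V a) = 0 := by
  rw [li_en, form_comp, LinearEquiv.map_eq_zero_iff]

include htr hss in
/-- transfer of relations of rows -/
theorem transfer_row {x : Fin n → k} (hx : x ≠ 0) :
    (∃ y : Fin m → k, y ≠ 0 ∧ ∀ a : MonoidAlgebra k U, Matrix.vecMul x (li V a) = 0 →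
      Matrix.vecMul y (li W a) = 0) ∨
    (c ≠ 0 ∧ ∀ a : MonoidAlgebra k U, Matrix.vecMul x (li V a) = 0 → li l a = 0) := by
  have hx' : dotProductEquiv k (Fin n) x ≠ 0 := by
    rwa [Ne, LinearEquiv.map_eq_zero_iff]
  by_cases hc : c = 0
  · obtain ⟨f, hf, h⟩ := transfer_dual (en V) (en W) (hZ_zero V W l c htr hc) hss hx'
    obtain ⟨y, rfl⟩ := (dotProductEquiv k (Fin m)).surjective f
    refine Or.inl ⟨y, fun h0 => hf (by rw [h0, map_zero]), fun a ha => ?_⟩
    rw [← form_comp_zero]
    exact h a ((form_comp_zero V x a).2 ha)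
  · obtain ⟨f, hf, h⟩ := transfer_dual (en V) (mu W l) (hZ_mu V W l c htr) (ss_mu W l hss) hx'
    by_cases hf0 : f ∘ₗ LinearMap.inl k (Fin m → k) k = 0
    · right
      have hs : f (0, 1) ≠ 0 := by
        intro hs
        apply hf
        refine LinearMap.ext fun z => ?_
        have h1 : z = LinearMap.inl k (Fin m → k) k z.1 + z.2 • ((0, 1) : (Fin m → k) × k) := by
          refine Prod.ext ?_ ?_
          · change z.1 = z.1 + z.2 • 0
            rw [smul_zero, add_zero]
          · change z.2 = 0 + z.2 • 1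
            rw [zero_add, smul_eq_mul, mul_one]
        rw [h1, map_add, map_smul, hs, smul_zero, add_zero]
        exact LinearMap.congr_fun hf0 z.1
      refine ⟨hc, fun a ha => ?_⟩
      have h1 := LinearMap.congr_fun (h a ((form_comp_zero V x a).2 ha)) (0, 1)
      rw [LinearMap.comp_apply, li_mu, map_zero, LinearMap.zero_apply] at h1
      change f (0, li l a • (1 : k)) = 0 at h1
      have h2 : ((0, li l a • (1 : k)) : (Fin m → k) × k) = li l a • (0, 1) := by
        refine Prod.ext ?_ rfl
        change (0 : Fin m → k) = li l a • 0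
        rw [smul_zero]
      rw [h2, map_smul] at h1
      exact (smul_eq_zero.1 h1).resolve_right hs
    · obtain ⟨y, hy⟩ := (dotProductEquiv k (Fin m)).surjective
        (f ∘ₗ LinearMap.inl k (Fin m → k) k)
      refine Or.inl ⟨y, fun h0 => hf0 (by rw [← hy, h0, map_zero]), fun a ha => ?_⟩
      rw [← form_comp_zero, hy]
      refine LinearMap.ext fun z => ?_
      have h1 := LinearMap.congr_fun (h a ((form_comp_zero V x a).2 ha)) (z, 0)
      rw [LinearMap.comp_apply, li_mu, smul_zero] at h1
      exact h1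

end rep

end Pool.Agent.NH57.WM
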