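import Mathlib
import Pool.Agent.TH658.Eq.Newt

/-!
# Transfer of local factors at places with monodromy: semisimple representations
-/

set_option autoImplicit false

namespace Pool.Agent.NH57.WM

open Polynomial Module

section ring

theorem exists_annihilator {B : Type*} [Ring B] [IsSemisimpleRing B] (I : Ideal B)
    (hI : (1 : B) ∉ I) : ∃ j : B, j ≠ 0 ∧ ∀ r ∈ I, r * j = 0 := by
  obtain ⟨J, hJ⟩ := exists_isCompl I
  have h0 : (1 : B) ∈ I ⊔ J := by
    rw [hJ.sup_eq_top]
    exact Submodule.mem_top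
  obtain ⟨i, hi, j, hj, hij⟩ := Submodule.mem_sup.1 h0
  refine ⟨j, ?_, ?_⟩
  · rintro rfl
    rw [add_zero] at hij
    exact hI (hij ▸ hi)
  · intro r hr
    have h1 : r * j ∈ J := J.smul_mem r hj
    have h2 : r * j = r - r * i := by
      rw [eq_sub_iff_add_eq, ← mul_add, add_comm, hij, mul_one]
    have h3 : r * j ∈ I := by
      rw [h2]
      exact I.sub_mem hr (I.mul_mem_left r hi)
    exact Submodule.disjoint_def.1 hJ.disjoint _ h3 h1

end ring

section alg

variable {k : Type*} [Field k] {M : Type*} [AddCommGroup M] [Module k M]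

/-- every stable subspace has a stable complement -/
def SS (A : Set (Module.End k M)) : Prop :=
  ∀ S : Submodule k M, (∀ b ∈ A, ∀ x ∈ S, b x ∈ S) →
    ∃ T : Submodule k M, (∀ b ∈ A, ∀ x ∈ T, b x ∈ T) ∧ IsCompl S T

theorem ss_ring [FiniteDimensional k M] (B : Subalgebra k (Module.End k M))
    (h : SS (B : Set (Module.End k M))) : IsSemisimpleRing B := by
  have h1 : IsSemisimpleModule B M := by
    rw [isSemisimpleModule_iff]
    refine ⟨fun S => ?_⟩
    obtain ⟨T, hT, hST⟩ := h (S.restrictScalars k) (fun b hb x hx => S.smul_mem ⟨b, hb⟩ hx)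
    let T' : Submodule B M :=
      { carrier := T
        add_mem' := fun ha hb => T.add_mem ha hb
        zero_mem' := T.zero_mem
        smul_mem' := fun b x hx => hT b b.2 x hx }
    refine ⟨T', ?_⟩
    rw [isCompl_iff]
    constructor
    · rw [Submodule.disjoint_def]
      intro x hx hx'
      exact Submodule.disjoint_def.1 hST.disjoint x hx hx'
    · rw [codisjoint_iff, eq_top_iff]
      intro x _
      have h2 : x ∈ S.restrictScalars k ⊔ T := by
        rw [hST.sup_eq_top]
        exact Submodule.mem_top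
      obtain ⟨a, ha, b, hb, hab⟩ := Submodule.mem_sup.1 h2
      exact Submodule.mem_sup.2 ⟨a, ha, b, hb, hab⟩
  let b := finBasis k M
  let f : B →ₗ[B] (Fin (finrank k M) → M) :=
    LinearMap.pi fun i => LinearMap.toSpanSingleton B M (b i)
  refine IsSemisimpleModule.of_injective f ?_
  intro x y hxy
  apply Subtype.ext
  refine b.ext fun i => ?_
  exact congrFun hxy i

theorem ss_of_ring (B : Subalgebra k (Module.End k M)) [IsSemisimpleRing B] :
    SS (B : Set (Module.End k M)) := by
  intro S hS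
  let S' : Submodule B M :=
    { carrier := S
      add_mem' := fun ha hb => S.add_mem ha hb
      zero_mem' := S.zero_mem
      smul_mem' := fun b x hx => hS b b.2 x hx }
  obtain ⟨T, hT⟩ := exists_isCompl S'
  refine ⟨T.restrictScalars k, fun b hb x hx => T.smul_mem ⟨b, hb⟩ hx, ?_⟩
  rw [isCompl_iff]
  constructor
  · rw [Submodule.disjoint_def]
    intro x hx hx'
    exact Submodule.disjoint_def.1 hT.disjoint x hx hx'
  · rw [codisjoint_iff, eq_top_iff]
    intro x _
    have h2 : x ∈ S' ⊔ T := by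
      rw [hT.sup_eq_top]
      exact Submodule.mem_top
    obtain ⟨a, ha, b, hb, hab⟩ := Submodule.mem_sup.1 h2
    exact Submodule.mem_sup.2 ⟨a, ha, b, hb, hab⟩

end alg

section nil

variable {k : Type} [Field k] [CharZero k] {X : Type} [AddCommGroup X] [Module k X]
  [FiniteDimensional k X]

theorem nilp_of_traces (T : Module.End k X) (h : ∀ j : ℕ, LinearMap.trace k X (T ^ (j + 1)) = 0) :
    IsNilpotent T := by
  classical
  let b := finBasis k X
  set A := LinearMap.toMatrixAlgEquiv b T with hA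
  have h1 : A.charpoly = (0 : Matrix (Fin (finrank k X)) (Fin (finrank k X)) k).charpoly := by
    apply Pool.Agent.TH658.Eq.charpoly_eq_of_traces
    intro j
    rcases j with _ | j
    · rw [pow_zero, pow_zero]
    · rw [zero_pow (Nat.succ_ne_zero j), Matrix.trace_zero, hA, ← map_pow]
      have := h j
      rw [LinearMap.trace_eq_matrix_trace k b] at this
      exact this
  have h2 : A ^ finrank k X = 0 := by
    have h3 := Matrix.aeval_self_charpoly A
    rw [h1, Matrix.charpoly_zero, map_pow, aeval_X, Fintype.card_fin] at h3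
    exact h3
  refine ⟨finrank k X, ?_⟩
  apply (LinearMap.toMatrixAlgEquiv b).injective
  rw [map_pow, ← hA, h2, map_zero]

end nil

section transfer

variable {k : Type} [Field k] [CharZero k] {U : Type} [Group U]
  {X : Type} [AddCommGroup X] [Module k X] [FiniteDimensional k X]
  {M : Type} [AddCommGroup M] [Module k M] [FiniteDimensional k M]
  (ρ : U →* Module.End k X) (μ : U →* Module.End k M)

/-- the extension to the group algebra -/
noncomputable abbrev li {A : Type} [Semiring A] [Algebra k A] (ρ : U →* A) :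
    MonoidAlgebra k U →ₐ[k] A := MonoidAlgebra.lift k A U ρ

variable (hZ : ∀ a : MonoidAlgebra k U, li μ a = 0 → LinearMap.trace k X (li ρ a) = 0)

omit [FiniteDimensional k M] in
include hZ in
theorem nilp {a : MonoidAlgebra k U} (ha : li μ a = 0) : IsNilpotent (li ρ a) := by
  apply nilp_of_traces
  intro j
  rw [← map_pow]
  apply hZ
  rw [map_pow, ha, zero_pow (Nat.succ_ne_zero j)]

variable (hS : SS (Set.range μ))

omit [CharZero k] [FiniteDimensional k M] in
include hS in
theorem ss_range : SS (((li (k := k) μ).range : Subalgebra k (Module.End k M)) :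
    Set (Module.End k M)) := by
  intro S hS'
  obtain ⟨T, hT, hST⟩ := hS S (by
    rintro _ ⟨g, rfl⟩ x hx
    refine hS' _ ⟨MonoidAlgebra.of k U g, ?_⟩ x hx
    exact MonoidAlgebra.lift_of _ _)
  refine ⟨T, ?_, hST⟩
  rintro _ ⟨a, rfl⟩ x hx
  change li μ a x ∈ T
  rw [MonoidAlgebra.lift_apply, Finsupp.sum, LinearMap.sum_apply]
  refine T.sum_mem fun g _ => ?_
  rw [LinearMap.smul_apply]
  exact T.smul_mem _ (hT _ ⟨g, rfl⟩ x hx)

include hZ hS in
/-- transfer of relations of vectors -/
theorem transfer {x : X} (hx : x ≠ 0) : ∃ m : M, m ≠ 0 ∧ ∀ a : MonoidAlgebra k U,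
    li ρ a x = 0 → li μ a m = 0 := by
  have := ss_ring _ (ss_range μ hS)
  let I : Ideal (li μ).range :=
    { carrier := {b | ∃ a : MonoidAlgebra k U, li μ a = b ∧ li ρ a x = 0}
      add_mem' := by
        rintro b c ⟨a, ha, ha'⟩ ⟨a', hb, hb'⟩
        refine ⟨a + a', ?_, ?_⟩
        · rw [map_add, ha, hb]
          rfl
        · rw [map_add, LinearMap.add_apply, ha', hb', add_zero]
      zero_mem' := ⟨0, by rw [map_zero]; rfl, by rw [map_zero, LinearMap.zero_apply]⟩
      smul_mem' := by
        rintro ⟨_, c, rfl⟩ b ⟨a, ha, ha'⟩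
        refine ⟨c * a, ?_, ?_⟩
        · rw [map_mul, ha]
          rfl
        · rw [map_mul, Module.End.mul_apply, ha', map_zero] }
  have hI : (1 : (li μ).range) ∉ I := by
    rintro ⟨a, ha, ha'⟩
    have h1 : li μ (1 - a) = 0 := by
      rw [map_sub, map_one, ha]
      exact sub_self _
    obtain ⟨N, hN⟩ := nilp ρ μ hZ h1
    apply hx
    have h2 : ∀ j : ℕ, (li ρ (1 - a) ^ j) x = x := by
      intro j
      induction j with
      | zero => rw [pow_zero, Module.End.one_apply]
      | succ j ih =>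
        rw [pow_succ', Module.End.mul_apply, ih, map_sub, map_one, LinearMap.sub_apply,
          Module.End.one_apply, ha', sub_zero]
    rw [← h2 N, hN, LinearMap.zero_apply]
  obtain ⟨j, hj, hjI⟩ := exists_annihilator I hI
  obtain ⟨v, hv⟩ : ∃ v : M, (j : Module.End k M) v ≠ 0 := by
    by_contra hcon
    push Not at hcon
    exact hj (Subtype.ext (LinearMap.ext hcon))
  refine ⟨_, hv, ?_⟩
  intro a ha
  have h1 := hjI ⟨li μ a, a, rfl⟩ ⟨a, rfl, ha⟩
  have h2 := congrArg (fun b : (li μ).range => (b : Module.End k M) v) h1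
  exact h2

include hZ hS in
/-- transfer of relations of linear forms -/
theorem transfer_dual {f : X →ₗ[k] k} (hf : f ≠ 0) : ∃ f' : M →ₗ[k] k, f' ≠ 0 ∧
    ∀ a : MonoidAlgebra k U, f ∘ₗ li ρ a = 0 → f' ∘ₗ li μ a = 0 := by
  have := ss_ring _ (ss_range μ hS)
  let I : Ideal ((li μ).range)ᵐᵒᵖ :=
    { carrier := {b | ∃ a : MonoidAlgebra k U, li μ a = b.unop ∧ f ∘ₗ li ρ a = 0}
      add_mem' := by
        rintro b c ⟨a, ha, ha'⟩ ⟨a', hb, hb'⟩
        refine ⟨a + a', ?_, ?_⟩
        · rw [map_add, ha, hb]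
          rfl
        · rw [map_add, LinearMap.comp_add, ha', hb', add_zero]
      zero_mem' := ⟨0, by rw [map_zero]; rfl, by rw [map_zero, LinearMap.comp_zero]⟩
      smul_mem' := by
        rintro ⟨_, c, rfl⟩ b ⟨a, ha, ha'⟩
        refine ⟨a * c, ?_, ?_⟩
        · rw [map_mul, ha]
          rfl
        · rw [map_mul, Module.End.mul_eq_comp, ← LinearMap.comp_assoc, ha', LinearMap.zero_comp] }
  have hI : (1 : ((li μ).range)ᵐᵒᵖ) ∉ I := by
    rintro ⟨a, ha, ha'⟩
    have h1 : li μ (1 - a) = 0 := by
      rw [map_sub, map_one, ha]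
      exact sub_self _
    obtain ⟨N, hN⟩ := nilp ρ μ hZ h1
    apply hf
    have h2 : ∀ j : ℕ, f ∘ₗ (li ρ (1 - a) ^ j) = f := by
      intro j
      induction j with
      | zero => rw [pow_zero, Module.End.one_eq_id, LinearMap.comp_id]
      | succ j ih =>
        rw [pow_succ, Module.End.mul_eq_comp, ← LinearMap.comp_assoc, ih, map_sub, map_one,
          LinearMap.comp_sub, ha', sub_zero, Module.End.one_eq_id, LinearMap.comp_id]
    rw [← h2 N, hN, LinearMap.comp_zero]
  obtain ⟨j, hj, hjI⟩ := exists_annihilator I hI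
  obtain ⟨v, hv⟩ : ∃ v : M, (j.unop : Module.End k M) v ≠ 0 := by
    by_contra hcon
    push Not at hcon
    exact hj (MulOpposite.unop_injective (Subtype.ext (LinearMap.ext hcon)))
  obtain ⟨f0, hf0⟩ : ∃ f0 : Module.Dual k M, f0 ((j.unop : Module.End k M) v) ≠ 0 := by
    by_contra hcon
    push Not at hcon
    exact hv ((Module.forall_dual_apply_eq_zero_iff k _).1 hcon)
  refine ⟨f0 ∘ₗ (j.unop : Module.End k M), fun h => hf0 (LinearMap.congr_fun h v), ?_⟩
  intro a ha
  have h1 := hjI (MulOpposite.op ⟨li μ a, a, rfl⟩) ⟨a, rfl, ha⟩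
  have h2 : (j.unop : Module.End k M) * li μ a = 0 := by
    have h3 := congrArg (fun b : ((li μ).range)ᵐᵒᵖ => (b.unop : Module.End k M)) h1
    exact h3
  rw [LinearMap.comp_assoc, ← Module.End.mul_eq_comp, h2, LinearMap.comp_zero]

end transfer

end Pool.Agent.NH57.WM
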