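import Pool.Agent.NH57.WM.Mono
import Pool.Agent.NH57.WM.Rep
import Pool.Agent.NH57.WM.Lin2

/-!
# Transfer of local factors at places with monodromy: weights
-/

set_option autoImplicit false

namespace Pool.Agent.NH57.WM

open NumberField Filter Topology IsDedekindDomain Pool.Agent.W401.Cheb Pool.Agent.R401.Sup
open Pool.Agent.W569.FM Pool.Agent.R401.Img Pool.Agent.R401.Sup3 Pool.Agent.R401.Sup4
open Pool.Agent.R401.Tr3 Pool.Agent.R401.Tr4 Pool.Agent.R401.Tr5 Module Polynomial Matrix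
open Pool.Agent.R401.Tr8 Pool.Agent.R401.Tr9

variable {K : Type} [Field K] [NumberField K] {ℓ : ℕ} [Fact ℓ.Prime]

/-- upper bound for the weights on the vectors fixed by inertia -/
def WLE {m : ℕ} (W : GK K →* GL (Fin m) ℚ_[ℓ]) (P : Ideal (OO K)) (q : ℕ) (r : ℝ)
    (e : ℚ_[ℓ] →+* ℂ) : Prop :=
  ∀ k : ℕ, 1 ≤ k → ∀ g : GK K, FrobAt (q ^ k) P g⁻¹ → ∀ U : Subgroup (GK K), U.Normal →
    IsOpen (U : Set (GK K)) → ∀ (z : ℂ) (x : Fin m → ℂ), x ≠ 0 →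
    (∀ τ ∈ U, InInertia P τ → ((mt W τ).map e) *ᵥ x = x) → ((mt W g).map e) *ᵥ x = z • x →
    ‖z‖ ^ 2 ≤ r ^ k

/-- lower bound for the weights on the rows fixed by inertia -/
def WGE {m : ℕ} (W : GK K →* GL (Fin m) ℚ_[ℓ]) (P : Ideal (OO K)) (q : ℕ) (r : ℝ)
    (e : ℚ_[ℓ] →+* ℂ) : Prop :=
  ∀ k : ℕ, 1 ≤ k → ∀ g : GK K, FrobAt (q ^ k) P g⁻¹ → ∀ U : Subgroup (GK K), U.Normal →
    IsOpen (U : Set (GK K)) → ∀ (z : ℂ) (x : Fin m → ℂ), x ≠ 0 →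
    (∀ τ ∈ U, InInertia P τ → x ᵥ* ((mt W τ).map e) = x) → x ᵥ* ((mt W g).map e) = z • x →
    r ^ k ≤ ‖z‖ ^ 2

section one

variable {n m : ℕ} (V : GK K →* GL (Fin n) ℚ_[ℓ]) (hV : Continuous V)
  (W : GK K →* GL (Fin m) ℚ_[ℓ]) (u : ℤ)
  (φ : GK K → ℚ) (U : Subgroup (GK K)) (hUn : U.Normal) (hUo : IsOpen (U : Set (GK K)))
  (hU : ∀ x ∈ U, ∀ y, φ (x * y) = φ y)
  (hφ : ∀ y : GK K, cyc K ℓ ℚ_[ℓ] y ^ u * ((mt V y).trace - (mt W y).trace) = (φ y : ℚ_[ℓ]))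
  {P : Ideal (OO K)} (hP : P.IsMaximal) {q : ℕ} (hq : 2 ≤ q) {σ : GK K} (hσ : FrobAt q P σ)
  (hℓP : (ℓ : OO K) ∉ P) (U₁ : Subgroup (GK K)) (hU₁n : U₁.Normal)
  (hU₁o : IsOpen (U₁ : Set (GK K))) (hle : U₁ ≤ U)
  (hWu : ∀ τ ∈ U₁, InInertia P τ → IsNilpotent (mt W τ - 1))
  (hss : SS (Set.range (en (mh W)))) {r : ℝ} (hr : 0 < r)
  (hru : φ 1 ≠ 0 → (q : ℝ) ^ (2 * u) = r)

/-- the restriction to a subgroup -/
noncomputable abbrev rs {n : ℕ} (V : GK K →* GL (Fin n) ℚ_[ℓ]) (U : Subgroup (GK K)) :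
    U →* Matrix (Fin n) (Fin n) ℚ_[ℓ] := (mh V).comp U.subtype

/-- the character -/
noncomputable def lU (K : Type) [Field K] [NumberField K] (ℓ : ℕ) [Fact ℓ.Prime] (u : ℤ)
    (U : Subgroup (GK K)) : U →* ℚ_[ℓ] where
  toFun g := cyc K ℓ ℚ_[ℓ] (g : GK K) ^ (-u)
  map_one' := by rw [Subgroup.coe_one, map_one, _root_.one_zpow]
  map_mul' a b := by rw [Subgroup.coe_mul, map_mul, mul_zpow]

include hU hφ in
theorem htrU (g : U) : (rs V U g).trace = (rs W U g).trace + (φ 1 : ℚ_[ℓ]) * lU K ℓ u U g := by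
  have h1 := hφ g
  rw [← mul_one (g : GK K), hU _ g.2, mul_one] at h1
  change (mt V g).trace = (mt W g).trace + (φ 1 : ℚ_[ℓ]) * cyc K ℓ ℚ_[ℓ] (g : GK K) ^ (-u)
  rw [← h1, mul_right_comm, ← zpow_add₀ (c_ne _ _), add_neg_cancel, zpow_zero, one_mul]
  ring

include hUn hss in
theorem ssU : SS (Set.range (en (rs W U))) := by
  have h1 := clifford (en (mh W)) U hss
  have h2 : (en (mh W)) '' (U : Set (GK K)) = Set.range (en (rs W U)) := by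
    ext b
    constructor
    · rintro ⟨g, hg, rfl⟩
      exact ⟨⟨g, hg⟩, rfl⟩
    · rintro ⟨g, rfl⟩
      exact ⟨g, g.2, rfl⟩
  rwa [h2] at h1

theorem li_aeval {A : Type} [Ring A] [Algebra ℚ_[ℓ] A] {U : Type} [Group U] (ρ : U →* A) (g : U)
    (p : ℚ_[ℓ][X]) : li ρ (aeval (MonoidAlgebra.of ℚ_[ℓ] U g) p) = aeval (ρ g) p := by
  rw [← Polynomial.aeval_algHom_apply, MonoidAlgebra.lift_of]

include hU hφ hP hσ hℓP hle hWu in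
theorem unipV {τ : GK K} (hτU : τ ∈ U₁) (hτ : InInertia P τ) : IsNilpotent (mt V τ - 1) := by
  obtain ⟨N, hN⟩ := hWu τ hτU hτ
  set g : U := ⟨τ, hle hτU⟩ with hg
  set a : MonoidAlgebra ℚ_[ℓ] U := aeval (MonoidAlgebra.of ℚ_[ℓ] U g) ((X - 1) ^ (N + 1) : ℚ_[ℓ][X])
    with ha
  have h1 : IsNilpotent (li (rs V U) a) := by
    refine nilp_rep (rs V U) (rs W U) (lU K ℓ u U) (φ 1 : ℚ_[ℓ]) (htrU V W u φ U hU hφ) a ?_
      (Or.inr ?_)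
    · rw [ha, li_aeval, map_pow, map_sub, map_one, aeval_X]
      change (mt W τ - 1) ^ (N + 1) = 0
      rw [pow_succ, hN, zero_mul]
    · rw [ha, li_aeval, map_pow, map_sub, map_one, aeval_X]
      change (cyc K ℓ ℚ_[ℓ] τ ^ (-u) - 1) ^ (N + 1) = 0
      rw [cyc_inertia hP hℓP hσ hτ, _root_.one_zpow, sub_self, zero_pow (Nat.succ_ne_zero N)]
  rw [ha, li_aeval, map_pow, map_sub, map_one, aeval_X] at h1
  obtain ⟨M, hM⟩ := h1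
  refine ⟨(N + 1) * M, ?_⟩
  rw [pow_mul]
  exact hM

include hU hφ hUn hss hle in
theorem weights_vec {x : Fin n → ℚ_[ℓ]} (hx0 : x ≠ 0)
    (hx : ∀ τ ∈ U₁, InInertia P τ → mt V τ *ᵥ x = x) {g : GK K} (hg : g ∈ U) {p : ℚ_[ℓ][X]}
    (hp : (aeval (mt V g) p) *ᵥ x = 0) :
    (∃ y : Fin m → ℚ_[ℓ], y ≠ 0 ∧ (∀ τ ∈ U₁, InInertia P τ → mt W τ *ᵥ y = y) ∧
      (aeval (mt W g) p) *ᵥ y = 0) ∨
    (φ 1 ≠ 0 ∧ p.IsRoot (cyc K ℓ ℚ_[ℓ] g ^ (-u))) := by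
  rcases transfer_vec (rs V U) (rs W U) (lU K ℓ u U) (φ 1 : ℚ_[ℓ]) (htrU V W u φ U hU hφ)
    (ssU W U hUn hss) hx0 with ⟨y, hy, h⟩ | ⟨hc, h⟩
  · refine Or.inl ⟨y, hy, fun τ hτU hτ => ?_, ?_⟩
    · have h1 := h (aeval (MonoidAlgebra.of ℚ_[ℓ] U ⟨τ, hle hτU⟩) (X - 1 : ℚ_[ℓ][X])) (by
        rw [li_aeval, map_sub, map_one, aeval_X]
        change (mt V τ - 1) *ᵥ x = 0
        rw [Matrix.sub_mulVec, hx τ hτU hτ, Matrix.one_mulVec, sub_self])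
      rw [li_aeval, map_sub, map_one, aeval_X, Matrix.sub_mulVec, Matrix.one_mulVec] at h1
      exact sub_eq_zero.1 h1
    · have h1 := h (aeval (MonoidAlgebra.of ℚ_[ℓ] U ⟨g, hg⟩) p) (by
        rw [li_aeval]
        exact hp)
      rw [li_aeval] at h1
      exact h1
  · refine Or.inr ⟨by exact_mod_cast hc, ?_⟩
    have h1 := h (aeval (MonoidAlgebra.of ℚ_[ℓ] U ⟨g, hg⟩) p) (by
      rw [li_aeval]
      exact hp)
    rw [li_aeval] at h1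
    exact h1

include hU hφ hUn hss hle in
theorem weights_row {x : Fin n → ℚ_[ℓ]} (hx0 : x ≠ 0)
    (hx : ∀ τ ∈ U₁, InInertia P τ → x ᵥ* mt V τ = x) {g : GK K} (hg : g ∈ U) {p : ℚ_[ℓ][X]}
    (hp : x ᵥ* (aeval (mt V g) p) = 0) :
    (∃ y : Fin m → ℚ_[ℓ], y ≠ 0 ∧ (∀ τ ∈ U₁, InInertia P τ → y ᵥ* mt W τ = y) ∧
      y ᵥ* (aeval (mt W g) p) = 0) ∨
    (φ 1 ≠ 0 ∧ p.IsRoot (cyc K ℓ ℚ_[ℓ] g ^ (-u))) := by
  rcases transfer_row (rs V U) (rs W U) (lU K ℓ u U) (φ 1 : ℚ_[ℓ]) (htrU V W u φ U hU hφ)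
    (ssU W U hUn hss) hx0 with ⟨y, hy, h⟩ | ⟨hc, h⟩
  · refine Or.inl ⟨y, hy, fun τ hτU hτ => ?_, ?_⟩
    · have h1 := h (aeval (MonoidAlgebra.of ℚ_[ℓ] U ⟨τ, hle hτU⟩) (X - 1 : ℚ_[ℓ][X])) (by
        rw [li_aeval, map_sub, map_one, aeval_X]
        change x ᵥ* (mt V τ - 1) = 0
        rw [Matrix.vecMul_sub, hx τ hτU hτ, Matrix.vecMul_one, sub_self])
      rw [li_aeval, map_sub, map_one, aeval_X, Matrix.vecMul_sub, Matrix.vecMul_one] at h1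
      exact sub_eq_zero.1 h1
    · have h1 := h (aeval (MonoidAlgebra.of ℚ_[ℓ] U ⟨g, hg⟩) p) (by
        rw [li_aeval]
        exact hp)
      rw [li_aeval] at h1
      exact h1
  · refine Or.inr ⟨by exact_mod_cast hc, ?_⟩
    have h1 := h (aeval (MonoidAlgebra.of ℚ_[ℓ] U ⟨g, hg⟩) p) (by
      rw [li_aeval]
      exact hp)
    rw [li_aeval] at h1
    exact h1

end one

end Pool.Agent.NH57.WM
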