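import Pool.Agent.NH57.WM.Wt

/-!
# Transfer of local factors at places with monodromy: bounds for the eigenvalues
-/

set_option autoImplicit false

namespace Pool.Agent.NH57.WM

open NumberField Filter Topology IsDedekindDomain Pool.Agent.W401.Cheb Pool.Agent.R401.Sup
open Pool.Agent.W569.FM Pool.Agent.R401.Img Pool.Agent.R401.Sup3 Pool.Agent.R401.Sup4
open Pool.Agent.R401.Tr3 Pool.Agent.R401.Tr4 Pool.Agent.R401.Tr5 Module Polynomial Matrix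
open Pool.Agent.R401.Tr8 Pool.Agent.R401.Tr9

theorem root_unique {k : Type} [Field k] (e : k →+* ℂ) {p : k[X]} (hp : Irreducible p) {a : k}
    (ha : p.IsRoot a) {z : ℂ} (hz : (p.map e).IsRoot z) : z = e a := by
  have h1 : X - C a ∣ p := dvd_iff_isRoot.2 ha
  have h2 : Associated (X - C a) p := (irreducible_X_sub_C a).associated_of_dvd hp h1
  obtain ⟨c, hc⟩ := h2
  have h3 : (p.map e).eval z = (z - e a) * ((c : k[X]).map e).eval z := by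
    rw [← hc, Polynomial.map_mul, eval_mul, Polynomial.map_sub, map_X, map_C, eval_sub, eval_X,
      eval_C]
  rw [IsRoot.def, h3] at hz
  obtain ⟨c0, hc0, hc1⟩ := Polynomial.isUnit_iff.1 c.isUnit
  have h4 : ((c : k[X]).map e).eval z ≠ 0 := by
    rw [← hc1, map_C, eval_C]
    exact (map_ne_zero e).2 hc0.ne_zero
  have h5 := (mul_eq_zero.1 hz).resolve_right h4
  exact sub_eq_zero.1 h5

theorem aeval_transpose {k : Type} [Field k] {m : ℕ} (A : Matrix (Fin m) (Fin m) k) (p : k[X]) :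
    aeval Aᵀ p = (aeval A p)ᵀ := by
  induction p using Polynomial.induction_on' with
  | add p r hp hr => rw [map_add, map_add, Matrix.transpose_add, hp, hr]
  | monomial j c =>
    rw [aeval_monomial, aeval_monomial, Algebra.algebraMap_eq_smul_one, smul_mul_assoc,
      smul_mul_assoc, one_mul, one_mul, Matrix.transpose_smul, Matrix.transpose_pow]

variable {K : Type} [Field K] [NumberField K] {ℓ : ℕ} [Fact ℓ.Prime]

theorem mt_conj_fix {m : ℕ} (W : GK K →* GL (Fin m) ℚ_[ℓ]) {P : Ideal (OO K)} {q : ℕ} (hq : 1 ≤ q)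
    {U₁ : Subgroup (GK K)} (hU₁n : U₁.Normal) {g : GK K} (hg : FrobAt q P g⁻¹)
    {y : Fin m → ℚ_[ℓ]} (hy : ∀ τ ∈ U₁, InInertia P τ → mt W τ *ᵥ y = y) {τ : GK K}
    (hτU : τ ∈ U₁) (hτ : InInertia P τ) (i : ℕ) :
    mt W τ *ᵥ (mt W g ^ i *ᵥ y) = mt W g ^ i *ᵥ y := by
  have h1 : FrobAt (q ^ i) P (g⁻¹ ^ i) := frob_pow hg i
  have h2 : InInertia P (g⁻¹ ^ i * τ * (g⁻¹ ^ i)⁻¹) := inertia_conj (Nat.one_le_pow _ _ hq) h1 hτ
  have h3 : g⁻¹ ^ i * τ * (g⁻¹ ^ i)⁻¹ ∈ U₁ := hU₁n.conj_mem τ hτU _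
  have h4 := hy _ h3 h2
  rw [Matrix.mulVec_mulVec, ← mt_pow, ← mt_mul]
  have h5 : τ * g ^ i = g ^ i * (g⁻¹ ^ i * τ * (g⁻¹ ^ i)⁻¹) := by
    rw [inv_pow, inv_inv]
    group
  rw [h5, mt_mul, ← Matrix.mulVec_mulVec, h4]

theorem inertia_conj' {P : Ideal (OO K)} (hP : P.IsMaximal) {q : ℕ} {g τ : GK K}
    (hg : FrobAt q P g⁻¹) (hτ : InInertia P τ) : InInertia P (g * τ * g⁻¹) := by
  intro y
  have h1 : g⁻¹ • ((g * τ * g⁻¹) • y - y) = τ • (g⁻¹ • y) - g⁻¹ • y := by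
    rw [smul_sub, mul_smul, mul_smul, inv_smul_smul]
  set z := (g * τ * g⁻¹) • y - y with hz
  have h2 : z ^ q = g⁻¹ • z - (g⁻¹ • z - z ^ q) := by abel
  have h3 : z ^ q ∈ P := by
    rw [h2]
    refine P.sub_mem ?_ (hg z)
    rw [h1]
    exact hτ _
  exact hP.isPrime.mem_of_pow_mem q h3

theorem mt_conj_fix_row {m : ℕ} (W : GK K →* GL (Fin m) ℚ_[ℓ]) {P : Ideal (OO K)}
    (hP : P.IsMaximal) {q : ℕ} {U₁ : Subgroup (GK K)} (hU₁n : U₁.Normal) {g : GK K}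
    (hg : FrobAt q P g⁻¹) {y : Fin m → ℚ_[ℓ]} (hy : ∀ τ ∈ U₁, InInertia P τ → y ᵥ* mt W τ = y)
    {τ : GK K} (hτU : τ ∈ U₁) (hτ : InInertia P τ) (i : ℕ) :
    (y ᵥ* mt W g ^ i) ᵥ* mt W τ = y ᵥ* mt W g ^ i := by
  have h2 : ∀ i : ℕ, InInertia P (g ^ i * τ * (g ^ i)⁻¹) := by
    intro i
    induction i with
    | zero => simpa using hτ
    | succ i ih =>
      have h := inertia_conj' hP hg ih
      have h' : g * (g ^ i * τ * (g ^ i)⁻¹) * g⁻¹ = g ^ (i + 1) * τ * (g ^ (i + 1))⁻¹ := by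
        rw [pow_succ']
        group
      rwa [h'] at h
  have h3 : g ^ i * τ * (g ^ i)⁻¹ ∈ U₁ := hU₁n.conj_mem τ hτU _
  have h4 := hy _ h3 (h2 i)
  rw [Matrix.vecMul_vecMul, ← mt_pow, ← mt_mul]
  have h5 : g ^ i * τ = (g ^ i * τ * (g ^ i)⁻¹) * g ^ i := by group
  rw [h5, mt_mul, ← Matrix.vecMul_vecMul, h4]

/-- the absolute value of the character -/
theorem lam_norm {P : Ideal (OO K)} (hP : P.IsMaximal) {q : ℕ} (hℓP : (ℓ : OO K) ∉ P) {k : ℕ}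
    {g : GK K} (hg : FrobAt (q ^ k) P g⁻¹) (u : ℤ) {r : ℝ} (hru : (q : ℝ) ^ (2 * u) = r)
    (e : ℚ_[ℓ] →+* ℂ) : ‖e (cyc K ℓ ℚ_[ℓ] g ^ (-u))‖ ^ 2 = r ^ k := by
  have h1 := cyc_sigma (ℓ := ℓ) hP hg hℓP
  rw [c_inv] at h1
  have h2 : cyc K ℓ ℚ_[ℓ] g ^ (-u) = ((q : ℚ_[ℓ]) ^ k) ^ u := by
    rw [_root_.zpow_neg, ← _root_.inv_zpow, h1]
    push_cast
    rfl
  rw [h2, map_zpow₀, map_pow, map_natCast, norm_zpow, norm_pow, Complex.norm_natCast, ← hru]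
  rw [← zpow_natCast (q : ℝ) k, ← zpow_natCast _ 2, ← zpow_natCast _ k, ← _root_.zpow_mul,
    ← _root_.zpow_mul, ← _root_.zpow_mul]
  congr 1
  push_cast
  ring

section bounds

variable {n m : ℕ} (V : GK K →* GL (Fin n) ℚ_[ℓ])
  (W : GK K →* GL (Fin m) ℚ_[ℓ]) (u : ℤ)
  (φ : GK K → ℚ) (U : Subgroup (GK K)) (hUn : U.Normal) (hUo : IsOpen (U : Set (GK K)))
  (hU : ∀ x ∈ U, ∀ y, φ (x * y) = φ y)
  (hφ : ∀ y : GK K, cyc K ℓ ℚ_[ℓ] y ^ u * ((mt V y).trace - (mt W y).trace) = (φ y : ℚ_[ℓ]))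
  {P : Ideal (OO K)} (hP : P.IsMaximal) {q : ℕ} (hq : 2 ≤ q)
  (hℓP : (ℓ : OO K) ∉ P) (U₁ : Subgroup (GK K)) (hU₁n : U₁.Normal)
  (hU₁o : IsOpen (U₁ : Set (GK K))) (hle : U₁ ≤ U)
  (hss : SS (Set.range (en (mh W)))) {r : ℝ} (hr : 0 < r)
  (hru : φ 1 ≠ 0 → (q : ℝ) ^ (2 * u) = r) (e : ℚ_[ℓ] →+* ℂ)

include hUn hUo hU hφ hP hq hℓP hU₁n hU₁o hle hss hr hru in
theorem bound_ker (hWLE : WLE W P q r e) {k : ℕ} (hk : 1 ≤ k) {g : GK K}
    (hg : FrobAt (q ^ k) P g⁻¹) (S : Submodule ℚ_[ℓ] (Fin n → ℚ_[ℓ]))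
    (hSd : ∀ x ∈ S, ∀ τ ∈ U₁, InInertia P τ → mt V τ *ᵥ x = x)
    (hS : S ≤ S.comap (Matrix.toLin' (mt V g))) {z : ℂ}
    (hz : z ∈ (((Matrix.toLin' (mt V g)).restrict hS).charpoly.map e).roots) :
    ‖z‖ ^ 2 ≤ r ^ k := by
  have hfin : Finite (GK K ⧸ U) := Subgroup.quotient_finite_of_isOpen _ hUo
  have hfi : U.FiniteIndex := Subgroup.finiteIndex_of_finite_quotient
  have hm : 0 < U.index := Nat.pos_of_ne_zero hfi.index_ne_zero
  have hgU : g ^ U.index ∈ U := Subgroup.pow_index_mem U g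
  have hgF : FrobAt (q ^ (k * U.index)) P (g ^ U.index)⁻¹ := by
    rw [pow_mul, ← inv_pow]
    exact frob_pow hg _
  have hq1 : 1 ≤ q ^ (k * U.index) := Nat.one_le_pow _ _ (by omega)
  obtain ⟨p, hp, hpz, x, hxS, hx0, hpx⟩ := exists_vec e (mt V g) S hS hz U.index
  rw [← mt_pow] at hpx
  have key : ‖z ^ U.index‖ ^ 2 ≤ r ^ (k * U.index) := by
    rcases weights_vec V W u φ U hUn hU hφ U₁ hle hss hx0 (hSd x hxS) hgU hpx with
      ⟨y, hy0, hyf, hpy⟩ | ⟨hφ1, hroot⟩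
    · obtain ⟨x', hx', hx'e, hx'D⟩ := exists_eigenvector e _ hy0 hp hpy hpz
      refine hWLE (k * U.index) (Nat.mul_pos hk hm) _ hgF U₁ hU₁n hU₁o _ x' hx' ?_ hx'e
      intro τ hτU hτ
      refine hx'D _ fun i => ?_
      exact mt_conj_fix W hq1 hU₁n hgF hyf hτU hτ i
    · rw [root_unique e hp hroot hpz, lam_norm hP hℓP hgF u (hru hφ1) e]
  rw [norm_pow, ← pow_mul, mul_comm, pow_mul, pow_mul] at key
  exact (pow_le_pow_iff_left₀ (by positivity) (by positivity) hm.ne').1 key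

include hUn hUo hU hφ hP hq hℓP hU₁n hU₁o hle hss hr hru in
theorem bound_coker (hWGE : WGE W P q r e) {k : ℕ} (hk : 1 ≤ k) {g : GK K}
    (hg : FrobAt (q ^ k) P g⁻¹) (R : Submodule ℚ_[ℓ] (Fin n → ℚ_[ℓ]))
    (hRd : ∀ y : Fin n → ℚ_[ℓ], (∀ x ∈ R, y ⬝ᵥ x = 0) → ∀ τ ∈ U₁, InInertia P τ →
      y ᵥ* mt V τ = y)
    (hR : R ≤ R.comap ((((q ^ k : ℕ) : ℚ_[ℓ])) • Matrix.toLin' (mt V g))) {z : ℂ}
    (hz : z ∈ ((R.mapQ R ((((q ^ k : ℕ) : ℚ_[ℓ])) • Matrix.toLin' (mt V g)) hR).charpoly.map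
      e).roots) :
    r ^ k < ‖z‖ ^ 2 := by
  have hfin : Finite (GK K ⧸ U) := Subgroup.quotient_finite_of_isOpen _ hUo
  have hfi : U.FiniteIndex := Subgroup.finiteIndex_of_finite_quotient
  have hm : 0 < U.index := Nat.pos_of_ne_zero hfi.index_ne_zero
  have hgU : g ^ U.index ∈ U := Subgroup.pow_index_mem U g
  have hgF : FrobAt (q ^ (k * U.index)) P (g ^ U.index)⁻¹ := by
    rw [pow_mul, ← inv_pow]
    exact frob_pow hg _
  have hQ0 : ((q ^ k : ℕ) : ℚ_[ℓ]) ≠ 0 := by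
    have : q ^ k ≠ 0 := pow_ne_zero _ (by omega)
    exact_mod_cast this
  have hR' : R ≤ R.comap (Matrix.toLin' (mt V g)) := by
    intro x hx
    have h1 := hR hx
    rw [Submodule.mem_comap, LinearMap.smul_apply] at h1
    have h2 := R.smul_mem (((q ^ k : ℕ) : ℚ_[ℓ])⁻¹) h1
    rwa [smul_smul, inv_mul_cancel₀ hQ0, one_smul] at h2
  have hmq : R.mapQ R ((((q ^ k : ℕ) : ℚ_[ℓ])) • Matrix.toLin' (mt V g)) hR =
      (((q ^ k : ℕ) : ℚ_[ℓ])) • R.mapQ R (Matrix.toLin' (mt V g)) hR' := by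
    ext x
    rfl
  rw [hmq] at hz
  have hz' := roots_smul e _ hQ0 hz
  rw [map_natCast] at hz'
  obtain ⟨p, hp, hpz, y, hy0, hyR, hpy⟩ := exists_row e (mt V g) R hR' hz' U.index
  rw [← mt_pow] at hpy
  have key : r ^ (k * U.index) ≤ ‖(z / ((q ^ k : ℕ) : ℂ)) ^ U.index‖ ^ 2 := by
    rcases weights_row V W u φ U hUn hU hφ U₁ hle hss hy0 (hRd y hyR) hgU hpy with
      ⟨y', hy0', hyf, hpy'⟩ | ⟨hφ1, hroot⟩
    · have hpy'' : (aeval (mt W (g ^ U.index))ᵀ p) *ᵥ y' = 0 := by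
        have h1 := aeval_transpose (mt W (g ^ U.index)) p
        rw [h1, Matrix.mulVec_transpose]
        exact hpy'
      obtain ⟨x', hx', hx'e, hx'D⟩ := exists_eigenvector e _ hy0' hp hpy'' hpz
      refine hWGE (k * U.index) (Nat.mul_pos hk hm) _ hgF U₁ hU₁n hU₁o _ x' hx' ?_ ?_
      · intro τ hτU hτ
        have h1 := hx'D (mt W τ)ᵀ fun i => ?_
        · rw [Matrix.transpose_map, Matrix.mulVec_transpose] at h1
          exact h1
        · rw [← Matrix.transpose_pow, Matrix.mulVec_transpose, Matrix.mulVec_transpose]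
          exact mt_conj_fix_row W hP hU₁n hgF hyf hτU hτ i
      · rw [Matrix.transpose_map, Matrix.mulVec_transpose] at hx'e
        exact hx'e
    · rw [root_unique e hp hroot hpz, lam_norm hP hℓP hgF u (hru hφ1) e]
  rw [norm_pow, ← pow_mul, mul_comm U.index 2, pow_mul ‖_‖, pow_mul] at key
  have key2 := (pow_le_pow_iff_left₀ (by positivity) (by positivity) hm.ne').1 key
  rw [norm_div, Complex.norm_natCast, div_pow] at key2
  have hq2 : (1 : ℝ) < ((q ^ k : ℕ) : ℝ) ^ 2 := by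
    have h1 : 2 ≤ q ^ k := hq.trans (Nat.le_self_pow (by omega) q)
    have h2 : (2 : ℝ) ≤ ((q ^ k : ℕ) : ℝ) := by exact_mod_cast h1
    nlinarith
  rw [le_div_iff₀ (by positivity)] at key2
  have h3 : 0 < r ^ k := by positivity
  nlinarith

end bounds

end Pool.Agent.NH57.WM
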